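import Pool.Agent.Lib.MP_5bcad1_co.Basic

open Finset

set_option linter.unusedSectionVars false

namespace Pool.Agent.Lib.MP_5bcad1_co

variable {α : Type} [DecidableEq α]

lemma sum_tot_erase {W : α → α → ℤ} (hW : SymW W) (S : Finset α) :
    ∑ v ∈ S, tot W (S.erase v) = ((S.card : ℤ) - 2) * tot W S := by
  rw [sum_congr rfl fun v hv => tot_erase hW hv, sum_sub_distrib, sum_const, ← mul_sum]
  simp only [nsmul_eq_mul]
  unfold tot
  ring

lemma avg_even {W : α → α → ℤ} (hW : SymW W) (k : ℕ) : ∀ S : Finset α, S.card = 2 * k →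
    ∃ K, PP W S K ∧ tot W S ≤ ((S.card : ℤ) - 1) * K := by
  induction k with
  | zero =>
    intro S hS
    have : S = ∅ := card_eq_zero.1 (by simpa using hS)
    subst this
    exact ⟨0, PP_empty W, by simp [tot]⟩
  | succ k ih =>
    intro S hS
    set s : ℤ := (S.card : ℤ) with hs
    have hs' : s = 2 * k + 2 := by rw [hs, hS]; push_cast; ring
    have hne : S.Nonempty := card_pos.1 (by omega)
    have h1 : ∑ u ∈ S, (s - 1) * ((s - 3) * tot W S) ≤
        ∑ u ∈ S, ∑ v ∈ S.erase u,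
          (s - 1) * (2 * (s - 3) * W u v + tot W ((S.erase u).erase v)) := by
      have e : ∀ u ∈ S, ∑ v ∈ S.erase u,
          (s - 1) * (2 * (s - 3) * W u v + tot W ((S.erase u).erase v)) =
          (s - 1) * (2 * (s - 3) * ∑ v ∈ S, W u v + (s - 3) * tot W (S.erase u)) := by
        intro u hu
        rw [← mul_sum, sum_add_distrib, ← mul_sum, sum_tot_erase hW, card_erase_of_mem hu,
          ← add_sum_erase S _ hu, hW.diag, zero_add]
        have : ((S.card - 1 : ℕ) : ℤ) = s - 1 := by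
          rw [hs]; omega
        rw [this]; ring
      rw [sum_congr rfl e, sum_const, ← mul_sum, sum_add_distrib, ← mul_sum, ← mul_sum,
        sum_tot_erase hW, nsmul_eq_mul, ← hs]
      apply le_of_eq
      unfold tot
      ring
    obtain ⟨u, hu, h2⟩ := exists_le_of_sum_le hne h1
    have hne' : (S.erase u).Nonempty := card_pos.1 (by rw [card_erase_of_mem hu]; omega)
    have h3 : ∑ v ∈ S.erase u, (s - 3) * tot W S ≤ ∑ v ∈ S.erase u,
          (s - 1) * (2 * (s - 3) * W u v + tot W ((S.erase u).erase v)) := by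
      refine le_trans (le_of_eq ?_) h2
      rw [sum_const, card_erase_of_mem hu, nsmul_eq_mul]
      have : ((S.card - 1 : ℕ) : ℤ) = s - 1 := by
        rw [hs]; omega
      rw [this]
    obtain ⟨v, hv, h4⟩ := exists_le_of_sum_le hne' h3
    have hc : ((S.erase u).erase v).card = 2 * k := by
      rw [card_erase_of_mem hv, card_erase_of_mem hu]; omega
    obtain ⟨K, hK, hK'⟩ := ih _ hc
    have huv : u ≠ v := (ne_of_mem_erase hv).symm
    have hd : Disjoint ({u, v} : Finset α) ((S.erase u).erase v) := by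
      rw [disjoint_left]
      intro i hi hi'
      simp only [mem_insert, mem_singleton] at hi
      simp only [mem_erase] at hi'
      tauto
    have hU : ({u, v} : Finset α) ∪ (S.erase u).erase v = S := by
      ext i
      simp only [mem_union, mem_insert, mem_singleton, mem_erase]
      have := mem_of_mem_erase hv
      constructor
      · rintro ((rfl | rfl) | h) <;> tauto
      · tauto
    have h5 := PP.union hW hd (PP_pair hW huv) hK
    rw [hU] at h5
    rcases Nat.eq_zero_or_pos k with rfl | hk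
    · refine ⟨2 * W u v, ?_, ?_⟩
      · have : (S.erase u).erase v = ∅ := card_eq_zero.1 (by simpa using hc)
        rw [this, union_empty] at hU
        rw [← hU]; exact PP_pair hW huv
      · have : (S.erase u).erase v = ∅ := card_eq_zero.1 (by simpa using hc)
        rw [this, union_empty] at hU
        have h6 : tot W S = 2 * W u v := by
          rw [← hU, tot_insert hW (by simpa using huv)]
          simp [tot, hW.diag]
        rw [h6, hs']; simp
    · refine ⟨2 * W u v + K, h5, ?_⟩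
      rw [hc] at hK'
      have hk' : (1 : ℤ) ≤ k := by exact_mod_cast hk
      have hpos : 0 < s - 3 := by linarith
      have e : ((2 * k : ℕ) : ℤ) - 1 = s - 3 := by rw [hs']; push_cast; ring
      rw [e] at hK'
      have h7 : (s - 3) * tot W S ≤ (s - 3) * ((s - 1) * (2 * W u v + K)) := by
        have : (s - 1) * tot W ((S.erase u).erase v) ≤ (s - 1) * ((s - 3) * K) :=
          mul_le_mul_of_nonneg_left hK' (by linarith)
        nlinarith
      exact le_of_mul_le_mul_left h7 hpos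

lemma avg_odd {W : α → α → ℤ} (hW : SymW W) (k : ℕ) (hk : 1 ≤ k) (S : Finset α)
    (hS : S.card = 2 * k + 1) : ∃ K, PP W S K ∧ tot W S ≤ (S.card : ℤ) * K := by
  set s : ℤ := (S.card : ℤ) with hs
  have hs' : s = 2 * k + 1 := by rw [hs, hS]; push_cast; ring
  have hne : S.Nonempty := card_pos.1 (by omega)
  have h1 : ∑ u ∈ S, (s - 2) * tot W S ≤ ∑ u ∈ S, s * tot W (S.erase u) := by
    rw [← mul_sum, ← mul_sum, sum_tot_erase hW, sum_const, nsmul_eq_mul, ← hs]
    apply le_of_eq; ring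
  obtain ⟨u, hu, h2⟩ := exists_le_of_sum_le hne h1
  have hc : (S.erase u).card = 2 * k := by rw [card_erase_of_mem hu]; omega
  obtain ⟨K, hK, hK'⟩ := avg_even hW k _ hc
  have h5 := PP.union hW (disjoint_singleton_left.2 (notMem_erase u S)) (PP_singleton hW u) hK
  rw [← insert_eq, insert_erase hu, zero_add] at h5
  refine ⟨K, h5, ?_⟩
  have hk' : (1 : ℤ) ≤ k := by exact_mod_cast hk
  rw [hc] at hK'
  have e : ((2 * k : ℕ) : ℤ) - 1 = s - 2 := by rw [hs']; push_cast; ring
  rw [e] at hK'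
  have hpos : 0 < s - 2 := by linarith
  have h7 : (s - 2) * tot W S ≤ (s - 2) * (s * K) := by
    have : s * tot W (S.erase u) ≤ s * ((s - 2) * K) :=
      mul_le_mul_of_nonneg_left hK' (by linarith)
    nlinarith
  exact le_of_mul_le_mul_left h7 hpos

/-- An even block with gain `γ` gives gain `γ` on the whole set. -/
lemma gain_ext {W : α → α → ℤ} (hW : SymW W) {S B : Finset α}
    (h1 : ∀ i ∈ S, ∀ j ∈ S, i ≠ j → 1 ≤ W i j) (hB : B ⊆ S) (he : Even B.card) {γ : ℤ}
    (h : PP W B (B.card + 2 * γ)) : PP W S ((S.card : ℤ) - (S.card : ℤ) % 2 + 2 * γ) := by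
  have h2 := PP_base hW _ (S \ B) rfl
    fun i hi j hj hij => h1 i (mem_sdiff.1 hi).1 j (mem_sdiff.1 hj).1 hij
  have h3 := PP.union hW (disjoint_sdiff (s := B) (t := S)) h h2
  rw [union_sdiff_of_subset hB] at h3
  refine h3.mono ?_
  have := card_le_card hB
  rw [card_sdiff_of_subset hB]
  obtain ⟨r, hr⟩ := he
  omega

/-- Matchings, as finite sets of ordered pairs. -/
structure IsMat (S : Finset α) (M : Finset (α × α)) : Prop where
  ne : ∀ p ∈ M, p.1 ≠ p.2
  mem1 : ∀ p ∈ M, p.1 ∈ S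
  mem2 : ∀ p ∈ M, p.2 ∈ S
  disj : ∀ p ∈ M, ∀ p' ∈ M, p ≠ p' → p.1 ≠ p'.1 ∧ p.1 ≠ p'.2 ∧ p.2 ≠ p'.1 ∧ p.2 ≠ p'.2

def supp (M : Finset (α × α)) : Finset α := M.biUnion fun p => {p.1, p.2}

lemma mem_supp {M : Finset (α × α)} {v : α} : v ∈ supp M ↔ ∃ p ∈ M, v = p.1 ∨ v = p.2 := by
  simp [supp]

lemma IsMat.subset {S : Finset α} {M M' : Finset (α × α)} (h : IsMat S M) (hM : M' ⊆ M) :
    IsMat S M' :=
  ⟨fun p hp => h.ne p (hM hp), fun p hp => h.mem1 p (hM hp), fun p hp => h.mem2 p (hM hp),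
    fun p hp p' hp' => h.disj p (hM hp) p' (hM hp')⟩

lemma IsMat.insert {S : Finset α} {M : Finset (α × α)} (h : IsMat S M) {a b : α} (hab : a ≠ b)
    (ha : a ∈ S) (hb : b ∈ S) (ha' : a ∉ supp M) (hb' : b ∉ supp M) :
    IsMat S (insert (a, b) M) ∧ (a, b) ∉ M := by
  simp only [mem_supp, not_exists, not_and, not_or] at ha' hb'
  refine ⟨⟨?_, ?_, ?_, ?_⟩, fun h' => (ha' _ h').1 rfl⟩
  · intro p hp
    rcases mem_insert.1 hp with rfl | hp
    · exact hab
    · exact h.ne p hp
  · intro p hp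
    rcases mem_insert.1 hp with rfl | hp
    · exact ha
    · exact h.mem1 p hp
  · intro p hp
    rcases mem_insert.1 hp with rfl | hp
    · exact hb
    · exact h.mem2 p hp
  · intro p hp p' hp' hne
    rcases mem_insert.1 hp with rfl | hp <;> rcases mem_insert.1 hp' with rfl | hp'
    · exact absurd rfl hne
    · exact ⟨(ha' _ hp').1, (ha' _ hp').2, (hb' _ hp').1, (hb' _ hp').2⟩
    · exact ⟨Ne.symm (ha' _ hp).1, Ne.symm (hb' _ hp).1, Ne.symm (ha' _ hp).2,
        Ne.symm (hb' _ hp).2⟩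
    · exact h.disj p hp p' hp' hne

lemma supp_insert (M : Finset (α × α)) (p : α × α) :
    supp (insert p M) = {p.1, p.2} ∪ supp M := by
  simp [supp]

lemma IsMat.disj_insert {S : Finset α} {M : Finset (α × α)} {p : α × α} (h : IsMat S (Insert.insert p M))
    (hp : p ∉ M) : Disjoint ({p.1, p.2} : Finset α) (supp M) := by
  rw [disjoint_left]
  intro v hv hv'
  obtain ⟨p', hp', h'⟩ := mem_supp.1 hv'
  have := h.disj p (mem_insert_self _ _) p' (mem_insert_of_mem hp') (fun h'' => hp (h'' ▸ hp'))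
  simp only [mem_insert, mem_singleton] at hv
  rcases hv with rfl | rfl <;> tauto

lemma IsMat.sum_supp {S : Finset α} {M : Finset (α × α)} (h : IsMat S M) (f : α → ℤ) :
    ∑ v ∈ supp M, f v = ∑ p ∈ M, (f p.1 + f p.2) := by
  induction M using Finset.induction_on with
  | empty => simp [supp]
  | insert p M hp ih =>
    rw [supp_insert, sum_union (h.disj_insert hp), sum_insert hp,
      ih (h.subset (subset_insert _ _)), sum_pair (h.ne p (mem_insert_self _ _))]

lemma IsMat.card_supp {S : Finset α} {M : Finset (α × α)} (h : IsMat S M) :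
    (supp M).card = 2 * M.card := by
  have := h.sum_supp fun _ => 1
  simp only [sum_const, nsmul_eq_mul, mul_one] at this
  omega

lemma IsMat.supp_subset {S : Finset α} {M : Finset (α × α)} (h : IsMat S M) : supp M ⊆ S := by
  intro v hv
  obtain ⟨p, hp, rfl | rfl⟩ := mem_supp.1 hv
  exacts [h.mem1 p hp, h.mem2 p hp]

lemma IsMat.pp {W : α → α → ℤ} (hW : SymW W) {S : Finset α} {M : Finset (α × α)}
    (h : IsMat S M) : PP W (supp M) (∑ p ∈ M, 2 * W p.1 p.2) := by
  induction M using Finset.induction_on with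
  | empty => simpa [supp] using PP_empty W
  | insert p M hp ih =>
    rw [supp_insert, sum_insert hp]
    exact PP.union hW (h.disj_insert hp) (PP_pair hW (h.ne p (mem_insert_self _ _)))
      (ih (h.subset (subset_insert _ _)))

/-- A maximum weight matching with positive edges and its exchange properties. -/
lemma exists_maxMat (S : Finset α) (ω : α → α → ℤ) (h0 : ∀ i ∈ S, ∀ j ∈ S, i ≠ j → 0 ≤ ω i j) :
    ∃ M, IsMat S M ∧ (∀ p ∈ M, 0 < ω p.1 p.2) ∧
      (∀ r ∈ S \ supp M, ∀ r' ∈ S \ supp M, r ≠ r' → ω r r' = 0) ∧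
      (∀ p ∈ M, ∀ r ∈ S \ supp M, ∀ r' ∈ S \ supp M, r ≠ r' →
        ω p.1 r + ω p.2 r' ≤ ω p.1 p.2) := by
  classical
  obtain ⟨M0, hM0, hmax⟩ := exists_max_image ((S ×ˢ S).powerset.filter fun M => IsMat S M)
    (fun M => ∑ p ∈ M, ω p.1 p.2)
    ⟨∅, mem_filter.2 ⟨empty_mem_powerset _, ⟨by simp, by simp, by simp, by simp⟩⟩⟩
  have hM0' := (mem_filter.1 hM0).2
  have hmax' : ∀ M, IsMat S M → ∑ p ∈ M, ω p.1 p.2 ≤ ∑ p ∈ M0, ω p.1 p.2 := fun M hM =>
    hmax M (mem_filter.2 ⟨mem_powerset.2 fun p hp => mem_product.2 ⟨hM.mem1 p hp, hM.mem2 p hp⟩,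
      hM⟩)
  set M := M0.filter fun p => 0 < ω p.1 p.2 with hMdef
  have hM : IsMat S M := hM0'.subset (filter_subset _ _)
  have hsum : ∑ p ∈ M, ω p.1 p.2 = ∑ p ∈ M0, ω p.1 p.2 := by
    rw [hMdef]
    refine sum_filter_of_ne fun p hp hne => ?_
    exact lt_of_le_of_ne (h0 _ (hM0'.mem1 p hp) _ (hM0'.mem2 p hp) (hM0'.ne p hp)) hne.symm
  refine ⟨M, hM, fun p hp => (mem_filter.1 hp).2, ?_, ?_⟩
  · intro r hr r' hr' hne
    rw [mem_sdiff] at hr hr'
    obtain ⟨h1, h2⟩ := hM.insert hne hr.1 hr'.1 hr.2 hr'.2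
    have := hmax' _ h1
    rw [sum_insert h2, hsum] at this
    have := h0 r hr.1 r' hr'.1 hne
    simp only at *
    linarith
  · intro p hp r hr r' hr' hne
    rw [mem_sdiff] at hr hr'
    have hE : IsMat S (M.erase p) := hM.subset (erase_subset _ _)
    have hdis : Disjoint ({p.1, p.2} : Finset α) (supp (M.erase p)) := by
      refine IsMat.disj_insert (S := S) ?_ (notMem_erase _ _)
      rwa [insert_erase hp]
    have hsub : supp (M.erase p) ⊆ supp M := fun v hv => by
      obtain ⟨p', hp', h⟩ := mem_supp.1 hv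
      exact mem_supp.2 ⟨p', mem_of_mem_erase hp', h⟩
    have hp1 : p.1 ∈ supp M := mem_supp.2 ⟨p, hp, Or.inl rfl⟩
    have hp2 : p.2 ∈ supp M := mem_supp.2 ⟨p, hp, Or.inr rfl⟩
    have n1 : p.1 ∉ supp (M.erase p) := disjoint_left.1 hdis (by simp)
    have n2 : p.2 ∉ supp (M.erase p) := disjoint_left.1 hdis (by simp)
    have a1 : p.2 ≠ r' := fun h => hr'.2 (h ▸ hp2)
    have a2 : p.1 ≠ r := fun h => hr.2 (h ▸ hp1)
    have a3 : p.1 ≠ r' := fun h => hr'.2 (h ▸ hp1)
    have a4 : r ≠ p.2 := fun h => hr.2 (h ▸ hp2)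
    obtain ⟨h1, h2⟩ := hE.insert a1 (hM.mem2 p hp) hr'.1 n2 (fun h => hr'.2 (hsub h))
    obtain ⟨h3, h4⟩ := h1.insert a2 (hM.mem1 p hp) hr.1
      (by
        rw [supp_insert]
        simp only [mem_union, mem_insert, mem_singleton, not_or]
        exact ⟨⟨hM.ne p hp, a3⟩, n1⟩)
      (by
        rw [supp_insert]
        simp only [mem_union, mem_insert, mem_singleton, not_or]
        exact ⟨⟨a4, hne⟩, fun h => hr.2 (hsub h)⟩)
    have := hmax' _ h3
    rw [sum_insert h4, sum_insert h2, ← hsum, ← add_sum_erase M _ hp] at this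
    simp only at this
    linarith

end Pool.Agent.Lib.MP_5bcad1_co
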