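import Mathlib

open Finset

set_option linter.unusedSectionVars false

namespace Pool.Agent.Lib.MP_5bcad1_co

variable {α : Type} [DecidableEq α]

/-- A signing. -/
def Sg (x : α → ℤ) : Prop := ∀ i, x i = 1 ∨ x i = -1

/-- Symmetric weights with zero diagonal. -/
structure SymW (W : α → α → ℤ) : Prop where
  symm : ∀ i j, W i j = W j i
  diag : ∀ i, W i i = 0

def qf (W : α → α → ℤ) (S : Finset α) (x : α → ℤ) : ℤ := ∑ i ∈ S, ∑ j ∈ S, W i j * x i * x j

def tot (W : α → α → ℤ) (S : Finset α) : ℤ := ∑ i ∈ S, ∑ j ∈ S, W i j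

def PP (W : α → α → ℤ) (S : Finset α) (k : ℤ) : Prop := ∃ x, Sg x ∧ qf W S x ≤ -k

def Good (a b : ℤ) : Prop :=
  ∃ L : List ℕ, a ≤ (L.map fun n : ℕ => (n : ℤ) * ((n : ℤ) - 1)).sum ∧
    (L.map fun n : ℕ => (n : ℤ) ^ 2 - (n : ℤ) % 2).sum ≤ b

lemma Good.mono {a b a' b' : ℤ} (h : Good a b) (ha : a' ≤ a) (hb : b ≤ b') : Good a' b' := by
  obtain ⟨L, h1, h2⟩ := h
  exact ⟨L, ha.trans h1, h2.trans hb⟩

lemma Good.add {a b a' b' : ℤ} (h : Good a b) (h' : Good a' b') : Good (a + a') (b + b') := by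
  obtain ⟨L, h1, h2⟩ := h
  obtain ⟨L', h1', h2'⟩ := h'
  refine ⟨L ++ L', ?_, ?_⟩ <;> simp only [List.map_append, List.sum_append] <;> linarith

lemma good_single (n : ℕ) : Good ((n : ℤ) * ((n : ℤ) - 1)) ((n : ℤ) ^ 2 - (n : ℤ) % 2) :=
  ⟨[n], by simp, by simp⟩

lemma good_zero : Good 0 0 := ⟨[], by simp, by simp⟩

lemma Good.pos {a b : ℤ} (h : Good a b) (ha : 0 < a) : 0 < b := by
  obtain ⟨L, h1, h2⟩ := h
  have key : ∀ L : List ℕ, 0 ≤ (L.map fun n : ℕ => (n : ℤ) ^ 2 - (n : ℤ) % 2).sum ∧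
      (0 < (L.map fun n : ℕ => (n : ℤ) * ((n : ℤ) - 1)).sum →
        0 < (L.map fun n : ℕ => (n : ℤ) ^ 2 - (n : ℤ) % 2).sum) := by
    intro L
    induction L with
    | nil => simp
    | cons n L ih =>
      simp only [List.map_cons, List.sum_cons]
      have hm : (n : ℤ) % 2 ≤ n := by omega
      have hn : (0 : ℤ) ≤ n := by positivity
      have h3 : (n : ℤ) * ((n : ℤ) - 1) ≤ (n : ℤ) ^ 2 - (n : ℤ) % 2 := by nlinarith
      have h4 : (0 : ℤ) ≤ (n : ℤ) * ((n : ℤ) - 1) := by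
        rcases Nat.eq_zero_or_pos n with h | h
        · simp [h]
        · have : (1 : ℤ) ≤ n := by exact_mod_cast h
          nlinarith
      refine ⟨by linarith [ih.1], fun h => ?_⟩
      by_cases h5 : 0 < (L.map fun n : ℕ => (n : ℤ) * ((n : ℤ) - 1)).sum
      · linarith [ih.2 h5]
      · linarith [ih.1]
  linarith [(key L).2 (by linarith)]

lemma Sg.sq {x : α → ℤ} (h : Sg x) (i : α) : x i * x i = 1 := by
  rcases h i with h | h <;> simp [h]

lemma sg_one : Sg (fun _ : α => (1 : ℤ)) := fun _ => Or.inl rfl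

lemma qf_congr {W : α → α → ℤ} {S : Finset α} {x y : α → ℤ} (h : ∀ i ∈ S, x i = y i) :
    qf W S x = qf W S y := by
  unfold qf
  refine sum_congr rfl fun i hi => sum_congr rfl fun j hj => ?_
  rw [h i hi, h j hj]

lemma qf_congr_W {W W' : α → α → ℤ} {S : Finset α} {x : α → ℤ}
    (h : ∀ i ∈ S, ∀ j ∈ S, W i j = W' i j) : qf W S x = qf W' S x := by
  unfold qf
  refine sum_congr rfl fun i hi => sum_congr rfl fun j hj => ?_
  rw [h i hi j hj]

lemma tot_eq_qf (W : α → α → ℤ) (S : Finset α) : tot W S = qf W S (fun _ => 1) := by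
  simp [tot, qf]

lemma qf_smul {W : α → α → ℤ} {S : Finset α} {x y : α → ℤ} {σ : ℤ} (hσ : σ = 1 ∨ σ = -1)
    (h : ∀ i ∈ S, y i = σ * x i) : qf W S y = qf W S x := by
  unfold qf
  refine sum_congr rfl fun i hi => sum_congr rfl fun j hj => ?_
  rw [h i hi, h j hj]
  rcases hσ with h | h <;> subst h <;> ring

lemma qf_union {W : α → α → ℤ} (hW : SymW W) {S T : Finset α} (h : Disjoint S T) (x : α → ℤ) :
    qf W (S ∪ T) x = qf W S x + qf W T x + 2 * ∑ i ∈ S, ∑ j ∈ T, W i j * x i * x j := by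
  unfold qf
  rw [sum_union h]
  simp only [sum_union h, sum_add_distrib]
  have : ∑ i ∈ T, ∑ j ∈ S, W i j * x i * x j = ∑ i ∈ S, ∑ j ∈ T, W i j * x i * x j := by
    rw [sum_comm]
    refine sum_congr rfl fun i _ => sum_congr rfl fun j _ => ?_
    rw [hW.symm j i]; ring
  rw [this]; ring

lemma qf_singleton {W : α → α → ℤ} (hW : SymW W) (v : α) (x : α → ℤ) : qf W {v} x = 0 := by
  simp [qf, hW.diag]

lemma qf_insert {W : α → α → ℤ} (hW : SymW W) {S : Finset α} {v : α} (h : v ∉ S) (x : α → ℤ) :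
    qf W (insert v S) x = qf W S x + 2 * x v * ∑ j ∈ S, W v j * x j := by
  rw [insert_eq, qf_union hW (by simpa using h), qf_singleton hW, sum_singleton]
  have : ∑ j ∈ S, W v j * x v * x j = x v * ∑ j ∈ S, W v j * x j := by
    rw [mul_sum]
    exact sum_congr rfl fun j _ => by ring
  rw [this]; ring

lemma tot_insert {W : α → α → ℤ} (hW : SymW W) {S : Finset α} {v : α} (h : v ∉ S) :
    tot W (insert v S) = tot W S + 2 * ∑ j ∈ S, W v j := by
  rw [tot_eq_qf, tot_eq_qf, qf_insert hW h]; simp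

lemma tot_union {W : α → α → ℤ} (hW : SymW W) {S T : Finset α} (h : Disjoint S T) :
    tot W (S ∪ T) = tot W S + tot W T + 2 * ∑ i ∈ S, ∑ j ∈ T, W i j := by
  rw [tot_eq_qf, tot_eq_qf, tot_eq_qf, qf_union hW h]; simp

lemma tot_erase {W : α → α → ℤ} (hW : SymW W) {S : Finset α} {v : α} (h : v ∈ S) :
    tot W (S.erase v) = tot W S - 2 * ∑ j ∈ S, W v j := by
  have h1 := tot_insert hW (notMem_erase v S)
  rw [insert_erase h] at h1
  have h2 : ∑ j ∈ S, W v j = ∑ j ∈ S.erase v, W v j := by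
    rw [← add_sum_erase S _ h, hW.diag, zero_add]
  rw [h1, h2]; ring

lemma glue {S T : Finset α} (h : Disjoint S T) {x y : α → ℤ} (hx : Sg x) (hy : Sg y) {σ : ℤ}
    (hσ : σ = 1 ∨ σ = -1) :
    ∃ z, Sg z ∧ (∀ i ∈ S, z i = x i) ∧ (∀ i ∈ T, z i = σ * y i) := by
  refine ⟨fun i => if i ∈ S then x i else σ * y i, fun i => ?_, fun i hi => by simp [hi],
    fun i hi => ?_⟩
  · by_cases hi : i ∈ S
    · simpa [hi] using hx i
    · simp only [hi, if_false]
      rcases hσ with h | h <;> rcases hy i with h' | h' <;> simp [h, h']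
  · have : i ∉ S := fun h' => disjoint_left.1 h h' hi
    simp [this]

lemma PP.mono {W : α → α → ℤ} {S : Finset α} {k k' : ℤ} (h : PP W S k) (hk : k' ≤ k) :
    PP W S k' := by
  obtain ⟨x, hx, h⟩ := h
  exact ⟨x, hx, by linarith⟩

lemma PP_empty (W : α → α → ℤ) : PP W ∅ 0 := ⟨fun _ => 1, sg_one, by simp [qf]⟩

lemma PP.union {W : α → α → ℤ} (hW : SymW W) {S T : Finset α} (h : Disjoint S T) {k l : ℤ}
    (h1 : PP W S k) (h2 : PP W T l) : PP W (S ∪ T) (k + l) := by
  obtain ⟨x, hx, h1⟩ := h1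
  obtain ⟨y, hy, h2⟩ := h2
  set c := ∑ i ∈ S, ∑ j ∈ T, W i j * x i * y j with hc
  obtain ⟨σ, hσ, hσc⟩ : ∃ σ : ℤ, (σ = 1 ∨ σ = -1) ∧ σ * c ≤ 0 := by
    rcases le_total c 0 with h | h
    · exact ⟨1, Or.inl rfl, by linarith⟩
    · exact ⟨-1, Or.inr rfl, by linarith⟩
  obtain ⟨z, hz, hzx, hzy⟩ := glue h hx hy hσ
  refine ⟨z, hz, ?_⟩
  rw [qf_union hW h, qf_congr hzx, qf_smul hσ hzy]
  have : ∑ i ∈ S, ∑ j ∈ T, W i j * z i * z j = σ * c := by
    rw [hc, mul_sum]
    refine sum_congr rfl fun i hi => ?_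
    rw [mul_sum]
    refine sum_congr rfl fun j hj => ?_
    rw [hzx i hi, hzy j hj]; ring
  rw [this]; linarith

lemma PP_pair {W : α → α → ℤ} (hW : SymW W) {u v : α} (h : u ≠ v) :
    PP W {u, v} (2 * W u v) := by
  refine ⟨fun i => if i = u then 1 else -1, fun i => by by_cases h : i = u <;> simp [h], ?_⟩
  rw [qf_insert hW (by simpa using h), qf_singleton hW]
  simp [h.symm]

lemma PP_singleton {W : α → α → ℤ} (hW : SymW W) (u : α) : PP W {u} 0 :=
  ⟨fun _ => 1, sg_one, by simp [qf_singleton hW]⟩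

/-- Baseline bound for complete weights. -/
lemma PP_base {W : α → α → ℤ} (hW : SymW W) (n : ℕ) : ∀ S : Finset α, S.card = n →
    (∀ i ∈ S, ∀ j ∈ S, i ≠ j → 1 ≤ W i j) → PP W S ((S.card : ℤ) - (S.card : ℤ) % 2) := by
  induction n using Nat.strong_induction_on with
  | _ n ih =>
    intro S hS h1
    by_cases h2 : 2 ≤ S.card
    · obtain ⟨u, hu, v, hv, huv⟩ := one_lt_card.1 h2
      have hsub : ({u, v} : Finset α) ⊆ S := by
        intro i hi; simp only [mem_insert, mem_singleton] at hi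
        rcases hi with rfl | rfl <;> assumption
      have hc : (S \ {u, v}).card = S.card - 2 := by
        rw [card_sdiff_of_subset hsub, card_pair huv]
      have := ih (S.card - 2) (by omega) (S \ {u, v}) hc
        fun i hi j hj hij => h1 i (mem_sdiff.1 hi).1 j (mem_sdiff.1 hj).1 hij
      have h3 := PP.union hW (disjoint_sdiff (s := {u, v}) (t := S)) (PP_pair hW huv) this
      rw [union_sdiff_of_subset hsub] at h3
      refine h3.mono ?_
      have := h1 u hu v hv huv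
      rw [hc]
      omega
    · have : S.card = 0 ∨ S.card = 1 := by omega
      rcases this with h | h
      · rw [card_eq_zero.1 h]; simpa using PP_empty W
      · obtain ⟨u, rfl⟩ := card_eq_one.1 h
        simpa using PP_singleton hW u

lemma parity {W : α → α → ℤ} (hW : SymW W) {x : α → ℤ} (hx : Sg x) (S : Finset α) :
    (∃ m, tot W S = 2 * m) ∧ ∃ c, tot W S - qf W S x = 4 * c := by
  induction S using Finset.induction_on with
  | empty => exact ⟨⟨0, by simp [tot]⟩, ⟨0, by simp [tot, qf]⟩⟩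
  | insert v S hv ih =>
    obtain ⟨⟨m, hm⟩, ⟨c, hc⟩⟩ := ih
    rw [tot_insert hW hv, qf_insert hW hv]
    refine ⟨⟨m + ∑ j ∈ S, W v j, by rw [hm]; ring⟩,
      ⟨c + ∑ j ∈ S, if x v = x j then 0 else W v j, ?_⟩⟩
    have : ∑ j ∈ S, W v j - x v * ∑ j ∈ S, W v j * x j =
        2 * ∑ j ∈ S, if x v = x j then 0 else W v j := by
      rw [mul_sum, mul_sum, ← sum_sub_distrib]
      refine sum_congr rfl fun j _ => ?_
      rcases hx v with h | h <;> rcases hx j with h' | h' <;> simp [h, h'] <;> ring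
    linarith

lemma exists_opt (W : α → α → ℤ) (S : Finset α) :
    ∃ x, Sg x ∧ ∀ k, PP W S k → qf W S x ≤ -k := by
  have hb : ∃ b : ℤ, ∀ z : ℤ, (∃ x, Sg x ∧ qf W S x = z) → b ≤ z := by
    refine ⟨∑ i ∈ S, ∑ j ∈ S, -|W i j|, ?_⟩
    rintro z ⟨x, hx, rfl⟩
    refine sum_le_sum fun i _ => sum_le_sum fun j _ => ?_
    rcases hx i with h | h <;> rcases hx j with h' | h' <;> simp [h, h', neg_abs_le, le_abs_self]
  obtain ⟨z, ⟨x, hx, hz⟩, hmin⟩ := Int.exists_least_of_bdd hb ⟨_, _, sg_one, rfl⟩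
  refine ⟨x, hx, ?_⟩
  rintro k ⟨y, hy, hk⟩
  have := hmin _ ⟨y, hy, rfl⟩
  linarith

/-- Contraction of `v` into `u` with sign `σ`. -/
def contr (W : α → α → ℤ) (u v : α) (σ : ℤ) : α → α → ℤ := fun i j =>
  if i = j then 0 else W i j + (if i = u then σ * W v j else 0) + (if j = u then σ * W i v else 0)

lemma contr_symW {W : α → α → ℤ} (hW : SymW W) (u v : α) (σ : ℤ) : SymW (contr W u v σ) := by
  refine ⟨fun i j => ?_, fun i => by simp [contr]⟩
  unfold contr
  by_cases h : i = j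
  · simp [h]
  · rw [if_neg h, if_neg (Ne.symm h), hW.symm i j, hW.symm v j, hW.symm i v]; ring

lemma qf_contr {W : α → α → ℤ} (hW : SymW W) {S : Finset α} {u v : α} (hu : u ∈ S) (σ : ℤ)
    (x : α → ℤ) :
    qf (contr W u v σ) S x = qf W S x + 2 * σ * x u * (∑ j ∈ S, W v j * x j - W v u * x u) := by
  rw [← insert_erase hu]
  have hn := notMem_erase u S
  rw [qf_insert (contr_symW hW u v σ) hn, qf_insert hW hn, sum_insert hn]
  have e1 : qf (contr W u v σ) (S.erase u) x = qf W (S.erase u) x := by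
    refine qf_congr_W fun i hi j hj => ?_
    have hi' := ne_of_mem_erase hi
    have hj' := ne_of_mem_erase hj
    by_cases h : i = j
    · simp [contr, h, hW.diag]
    · simp [contr, h, hi', hj']
  have e2 : ∑ j ∈ S.erase u, contr W u v σ u j * x j =
      ∑ j ∈ S.erase u, W u j * x j + σ * ∑ j ∈ S.erase u, W v j * x j := by
    rw [mul_sum, ← sum_add_distrib]
    refine sum_congr rfl fun j hj => ?_
    have hj' := ne_of_mem_erase hj
    simp only [contr, hj'.symm, hj', if_false, if_true]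
    ring
  rw [e1, e2]; ring

/-- Lifting a signing through a contraction. -/
lemma contr_lift {W : α → α → ℤ} (hW : SymW W) {S : Finset α} {u v : α} (hu : u ∈ S) (hv : v ∈ S)
    (huv : u ≠ v) {σ : ℤ} (hσ : σ = 1 ∨ σ = -1) {x : α → ℤ} (hx : Sg x) :
    (∃ y, Sg y ∧ qf W S y = qf (contr W u v σ) (S.erase v) x + 2 * σ * W u v) ∧
    tot (contr W u v σ) (S.erase v) =
      tot W S - 2 * (∑ j ∈ S, W v j) + 2 * σ * ((∑ j ∈ S, W v j) - W u v) := by
  have hu' : u ∈ S.erase v := mem_erase.2 ⟨huv, hu⟩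
  have hn := notMem_erase v S
  have hs : ∑ j ∈ S, W v j = ∑ j ∈ S.erase v, W v j := by
    rw [← add_sum_erase S _ hv, hW.diag, zero_add]
  constructor
  · refine ⟨Function.update x v (σ * x u), fun i => ?_, ?_⟩
    · by_cases hi : i = v
      · subst hi
        rcases hσ with h | h <;> rcases hx u with h' | h' <;> simp [h, h']
      · simpa [hi] using hx i
    · have hc : ∀ i ∈ S.erase v, Function.update x v (σ * x u) i = x i := fun i hi => by
        simp [ne_of_mem_erase hi]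
      conv_lhs => rw [← insert_erase hv]
      rw [qf_insert hW hn, qf_congr hc, qf_contr hW hu', Function.update_self,
        sum_congr rfl fun j hj => by rw [hc j hj], hW.symm v u]
      have := hx.sq u
      linear_combination (2 * σ * W u v) * this
  · rw [tot_eq_qf, qf_contr hW hu', ← tot_eq_qf, tot_erase hW hv, hs, hW.symm v u]
    simp

end Pool.Agent.Lib.MP_5bcad1_co
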