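import Pool.Agent.Lib.MP_5bcad1_co.Except

open Finset

set_option linter.unusedSectionVars false

namespace Pool.Agent.Lib.MP_5bcad1_co

lemma cut_eq {α : Type} [DecidableEq α] [Fintype α] {W : α → α → ℤ} (hW : SymW W)
    (S : Finset α) {x : α → ℤ} (h1 : ∀ i ∈ S, x i = 1) (h2 : ∀ i ∈ Sᶜ, x i = -1) :
    tot W univ - qf W univ x = 4 * ∑ p ∈ S ×ˢ Sᶜ, W p.1 p.2 := by
  have hd : Disjoint S Sᶜ := disjoint_compl_right
  rw [← union_compl S, tot_union hW hd, qf_union hW hd, tot_eq_qf, tot_eq_qf,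
    qf_smul (x := fun _ => 1) (y := x) (σ := 1) (Or.inl rfl) (by simpa using h1),
    qf_smul (x := fun _ => 1) (y := x) (σ := -1) (Or.inr rfl) (by simpa using h2),
    sum_product]
  have : ∑ i ∈ S, ∑ j ∈ Sᶜ, W i j * x i * x j = -∑ i ∈ S, ∑ j ∈ Sᶜ, W i j := by
    rw [← sum_neg_distrib]
    refine sum_congr rfl fun i hi => ?_
    rw [← sum_neg_distrib]
    refine sum_congr rfl fun j hj => ?_
    rw [h1 i hi, h2 j hj]; ring
  rw [this]; ring

/-- A zero-one weighting with total `a` all of whose cuts are bounded through `b`. -/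
def SW (a b : ℤ) : Prop :=
  ∃ (V : Type) (_ : Fintype V) (_ : DecidableEq V) (W : V → V → ℤ), SymW W ∧
    (∀ i j, W i j = 0 ∨ W i j = 1) ∧ tot W univ = a ∧
    ∀ x, Sg x → tot W univ - qf W univ x ≤ b

lemma SW_zero : SW 0 0 :=
  ⟨Fin 0, inferInstance, inferInstance, fun _ _ => 0, ⟨fun _ _ => rfl, fun _ => rfl⟩,
    fun _ _ => Or.inl rfl, by simp [tot], fun x _ => by simp [tot, qf]⟩

lemma SW.mono {a b b' : ℤ} (h : SW a b) (hb : b ≤ b') : SW a b' := by
  obtain ⟨V, i1, i2, W, h1, h2, h3, h4⟩ := h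
  exact ⟨V, i1, i2, W, h1, h2, h3, fun x hx => (h4 x hx).trans hb⟩

lemma SW.add {a b a' b' : ℤ} (h : SW a b) (h' : SW a' b') : SW (a + a') (b + b') := by
  obtain ⟨V, i1, i2, W, h1, h2, h3, h4⟩ := h
  obtain ⟨V', i1', i2', W', h1', h2', h3', h4'⟩ := h'
  let U : V ⊕ V' → V ⊕ V' → ℤ := fun i j => match i, j with
    | Sum.inl i, Sum.inl j => W i j
    | Sum.inr i, Sum.inr j => W' i j
    | _, _ => 0
  have hq : ∀ x : V ⊕ V' → ℤ, qf U univ x =
      qf W univ (fun i => x (Sum.inl i)) + qf W' univ (fun i => x (Sum.inr i)) := fun x => by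
    simp [qf, U, Fintype.sum_sum_type]
  have ht : tot U univ = tot W univ + tot W' univ := by
    rw [tot_eq_qf, tot_eq_qf, tot_eq_qf, hq]
  refine ⟨V ⊕ V', inferInstance, inferInstance, U, ⟨?_, ?_⟩, ?_, by rw [ht, h3, h3'], ?_⟩
  · rintro (i | i) (j | j)
    · exact h1.symm i j
    · rfl
    · rfl
    · exact h1'.symm i j
  · rintro (i | i)
    · exact h1.diag i
    · exact h1'.diag i
  · rintro (i | i) (j | j)
    · exact h2 i j
    · exact Or.inl rfl
    · exact Or.inl rfl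
    · exact h2' i j
  · intro x hx
    have a1 := h4 (fun i => x (Sum.inl i)) fun i => hx _
    have a2 := h4' (fun i => x (Sum.inr i)) fun i => hx _
    rw [ht, hq]; linarith

lemma SW_clique (n : ℕ) : SW ((n : ℤ) * ((n : ℤ) - 1)) ((n : ℤ) ^ 2 - (n : ℤ) % 2) := by
  let W : Fin n → Fin n → ℤ := fun i j => if i = j then 0 else 1
  have hW : SymW W := ⟨fun i j => by simp only [W, eq_comm], fun i => by simp [W]⟩
  have hq : ∀ x, Sg x → qf W univ x = (∑ i, x i) ^ 2 - n := fun x hx => by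
    have e : ∀ i j, W i j * x i * x j = x i * x j - if i = j then 1 else 0 := fun i j => by
      by_cases h : i = j
      · subst h; simp [W, hx.sq i]
      · simp [W, h]
    simp only [qf, e, sum_sub_distrib, sum_ite_eq, mem_univ, if_true, sum_const, card_univ,
      Fintype.card_fin, nsmul_eq_mul, mul_one]
    rw [sq, sum_mul_sum]
  have ht : tot W univ = (n : ℤ) * ((n : ℤ) - 1) := by
    rw [tot_eq_qf, hq _ sg_one]; simp; ring
  refine ⟨Fin n, inferInstance, inferInstance, W, hW, fun i j => ?_, ht, fun x hx => ?_⟩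
  · by_cases h : i = j <;> simp [W, h]
  · obtain ⟨-, c, hc⟩ := parity hW hx univ
    have a1 : tot W univ - qf W univ x ≤ (n : ℤ) ^ 2 := by
      rw [ht, hq x hx]; nlinarith [sq_nonneg (∑ i, x i)]
    have a2 := cast_quarter n
    omega

lemma SW.del {a b : ℤ} (h : SW (a + 2) b) (ha : 0 ≤ a) : SW a b := by
  obtain ⟨V, i1, i2, W, h1, h2, h3, h4⟩ := h
  obtain ⟨u, v, huv⟩ : ∃ u v, W u v = 1 := by
    by_contra h
    push Not at h
    have : tot W univ = 0 := sum_eq_zero fun i _ => sum_eq_zero fun j _ =>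
      (h2 i j).resolve_right (h i j)
    omega
  have hne : u ≠ v := fun h => by rw [h, h1.diag] at huv; exact zero_ne_one huv
  let D : V → V → ℤ := fun i j =>
    (if i = u then if j = v then 1 else 0 else 0) + (if i = v then if j = u then 1 else 0 else 0)
  have hq : ∀ x, qf (fun i j => W i j - D i j) univ x = qf W univ x - 2 * (x u * x v) := by
    intro x
    simp only [qf, D, sub_mul, add_mul, sum_sub_distrib, sum_add_distrib, ite_mul, zero_mul,
      one_mul, sum_ite_irrel, sum_const_zero, sum_ite_eq', mem_univ, if_true]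
    ring
  have ht : tot (fun i j => W i j - D i j) univ = tot W univ - 2 := by
    rw [tot_eq_qf, tot_eq_qf, hq]; simp
  refine ⟨V, i1, i2, fun i j => W i j - D i j, ⟨fun i j => ?_, fun i => ?_⟩, fun i j => ?_,
    by rw [ht, h3]; ring, fun x hx => ?_⟩
  · simp only [D, h1.symm i j]
    split_ifs <;> simp
  · simp only [D, h1.diag]
    split_ifs with b1 b2 <;> simp_all
  · have := h2 i j
    have := h1.symm u v
    simp only [D]
    split_ifs <;> simp_all
  · have := h4 x hx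
    rw [ht, hq]
    rcases hx u with b | b <;> rcases hx v with b' | b' <;> rw [b, b'] <;> linarith

lemma SW.down {a b : ℤ} (ha : 0 ≤ a) : ∀ k : ℕ, SW (a + 2 * k) b → SW a b
  | 0, h => by simpa using h
  | k + 1, h => by
    refine SW.down ha k (SW.del ?_ (by positivity))
    have : a + 2 * (k : ℤ) + 2 = a + 2 * ((k + 1 : ℕ) : ℤ) := by push_cast; ring
    rwa [this]

lemma Good.sw {m : ℕ} {b : ℤ} (h : Good (2 * m) b) : SW (2 * m) b := by
  obtain ⟨L, h1, h2⟩ := h
  have key : ∀ L : List ℕ, (∃ k : ℤ, (L.map fun n : ℕ => (n : ℤ) * ((n : ℤ) - 1)).sum = 2 * k) ∧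
      SW (L.map fun n : ℕ => (n : ℤ) * ((n : ℤ) - 1)).sum
        (L.map fun n : ℕ => (n : ℤ) ^ 2 - (n : ℤ) % 2).sum := by
    intro L
    induction L with
    | nil => exact ⟨⟨0, by simp⟩, by simpa using SW_zero⟩
    | cons n L ih =>
      obtain ⟨⟨k, hk⟩, ih⟩ := ih
      simp only [List.map_cons, List.sum_cons]
      exact ⟨⟨_ + k, by rw [hk, cast_half, mul_add]⟩, (SW_clique n).add ih⟩
  obtain ⟨⟨k, hk⟩, h3⟩ := key L
  obtain ⟨j, hj⟩ := Int.eq_ofNat_of_zero_le (show 0 ≤ k - m by omega)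
  refine SW.down (by positivity) j ?_
  have : 2 * (m : ℤ) + 2 * j = (L.map fun n : ℕ => (n : ℤ) * ((n : ℤ) - 1)).sum := by omega
  rw [this]
  exact h3.mono h2

lemma SW.fin {a b : ℤ} (h : SW a b) : ∃ (n : ℕ) (W : Fin n → Fin n → ℤ), SymW W ∧
    (∀ i j, W i j = 0 ∨ W i j = 1) ∧ tot W univ = a ∧
    ∀ x, Sg x → tot W univ - qf W univ x ≤ b := by
  obtain ⟨V, i1, i2, W, h1, h2, h3, h4⟩ := h
  let e := (Fintype.equivFin V).symm
  have hq : ∀ x : Fin (Fintype.card V) → ℤ, qf (fun i j => W (e i) (e j)) univ x =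
      qf W univ (fun i => x (e.symm i)) := fun x => by
    unfold qf
    rw [← e.sum_comp]
    refine sum_congr rfl fun i _ => ?_
    rw [← e.sum_comp]
    simp
  have ht : tot (fun i j => W (e i) (e j)) univ = tot W univ := by
    rw [tot_eq_qf, tot_eq_qf, hq]
  refine ⟨_, fun i j => W (e i) (e j), ⟨fun i j => h1.symm _ _, fun i => h1.diag _⟩,
    fun i j => h2 _ _, by rw [ht, h3], fun x hx => ?_⟩
  rw [ht, hq]
  exact h4 _ fun i => hx _

/-- For every multigraph there is a simple graph, as a zero-one weighting, with the same number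
of edges and no larger cuts. -/
theorem simple_of_multi {n m c : ℕ} (w : Fin n → Fin n → ℕ) (h1 : ∀ i j, w i j = w j i)
    (h2 : ∀ i, w i i = 0) (h3 : ∑ i, ∑ j, w i j = 2 * m)
    (h4 : ∀ S : Finset (Fin n), ∑ p ∈ S ×ˢ Sᶜ, w p.1 p.2 ≤ c) :
    ∃ (N : ℕ) (W : Fin N → Fin N → ℤ), SymW W ∧ (∀ i j, W i j = 0 ∨ W i j = 1) ∧
      ∑ i, ∑ j, W i j = 2 * m ∧ ∀ S : Finset (Fin N), ∑ p ∈ S ×ˢ Sᶜ, W p.1 p.2 ≤ c := by
  have hW : SymW fun i j => (w i j : ℤ) := ⟨fun i j => by rw [h1], fun i => by simp [h2]⟩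
  obtain ⟨x, hx, hG⟩ := main_good _ _ hW univ rfl
  have ht : tot (fun i j => (w i j : ℤ)) univ = 2 * m := by
    simp only [tot]
    exact_mod_cast h3
  rw [cut_eq hW (univ.filter fun i => x i = 1) (fun i hi => (mem_filter.1 hi).2)
    (fun i hi => (hx i).resolve_left (by simpa using hi)), ht] at hG
  have h5 : ∑ p ∈ (univ.filter fun i => x i = 1) ×ˢ (univ.filter fun i => x i = 1)ᶜ,
      (w p.1 p.2 : ℤ) ≤ c := by exact_mod_cast h4 _
  obtain ⟨N, W, a1, a2, a3, a4⟩ := (hG.mono le_rfl (b' := 4 * c) (by linarith)).sw.fin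
  refine ⟨N, W, a1, a2, a3, fun S => ?_⟩
  have := a4 (fun i => if i ∈ S then 1 else -1) fun i => by by_cases h : i ∈ S <;> simp [h]
  rw [cut_eq a1 S (fun i hi => by simp [hi]) (fun i hi => by simp [mem_compl.1 hi])] at this
  linarith

end Pool.Agent.Lib.MP_5bcad1_co
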