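import Pool.Agent.Lib.MP_5bcad1_co.Bridge

open Finset

namespace Pool.Agent.Lib.MP_5bcad1_co

lemma count_tot {V E : Type} [DecidableEq V] [Fintype V] [Fintype E] (ends : E → Sym2 V)
    (h : ∀ e, ¬ (ends e).IsDiag) :
    ∑ i : V, ∑ j : V, (univ.filter fun e => ends e = s(i, j)).card = 2 * Fintype.card E := by
  simp only [card_filter]
  rw [← Fintype.sum_prod_type', sum_comm]
  have key : ∀ e : E, ∑ p : V × V, (if ends e = s(p.1, p.2) then 1 else 0) = 2 := by
    intro e
    have h1 := h e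
    induction hz : ends e using Sym2.ind with
    | _ a b =>
      rw [hz, Sym2.mk_isDiag_iff] at h1
      rw [← card_filter]
      have : (univ.filter fun p : V × V => s(a, b) = s(p.1, p.2)) = {(a, b), (b, a)} := by
        ext ⟨x, y⟩
        simp only [mem_filter, mem_univ, true_and, Sym2.eq_iff, mem_insert, mem_singleton,
          Prod.mk.injEq]
        tauto
      rw [this, card_pair]
      intro h2
      exact h1 (Prod.mk.inj h2).1
  simp only [key, sum_const, card_univ, smul_eq_mul, mul_comm]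

lemma count_cut {V E : Type} [DecidableEq V] [DecidableEq E] [Fintype V] [Fintype E]
    (ends : E → Sym2 V) (S : Finset V) :
    ∑ p ∈ S ×ˢ Sᶜ, (univ.filter fun e => ends e = s(p.1, p.2)).card =
      {e | ∃ u ∈ S, ∃ v ∉ S, ends e = s(u, v)}.ncard := by
  rw [← card_biUnion]
  · rw [← Set.ncard_coe_finset]
    congr 1
    ext e
    simp
  · rintro ⟨a, b⟩ hp ⟨c, d⟩ hq hne
    simp only [coe_product, coe_compl, Set.mem_prod, mem_coe, Set.mem_compl_iff] at hp hq
    rw [Function.onFun, disjoint_filter]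
    intro e _ h1 h2
    rw [h1, Sym2.eq_iff] at h2
    rcases h2 with ⟨rfl, rfl⟩ | ⟨rfl, rfl⟩
    · exact hne rfl
    · exact hp.2 hq.1

lemma good_iff (m c : ℕ) : Good (2 * m) (4 * c) ↔ ∃ L : List ℕ,
    m ≤ (L.map fun n => n.choose 2).sum ∧ (L.map fun n => n ^ 2 / 4).sum ≤ c := by
  have key : ∀ L : List ℕ, (L.map fun n : ℕ => (n : ℤ) * ((n : ℤ) - 1)).sum =
      2 * (((L.map fun n => n.choose 2).sum : ℕ) : ℤ) ∧
      (L.map fun n : ℕ => (n : ℤ) ^ 2 - (n : ℤ) % 2).sum =
        4 * (((L.map fun n => n ^ 2 / 4).sum : ℕ) : ℤ) := by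
    intro L
    induction L with
    | nil => simp
    | cons n L ih =>
      simp only [List.map_cons, List.sum_cons]
      rw [ih.1, ih.2, cast_half, cast_quarter, Nat.choose_two_right, sq]
      constructor <;> (rw [Nat.cast_add]; ring)
  constructor
  · rintro ⟨L, h1, h2⟩
    rw [(key L).1] at h1
    rw [(key L).2] at h2
    exact ⟨L, by omega, by omega⟩
  · rintro ⟨L, h1, h2⟩
    exact ⟨L, by rw [(key L).1]; omega, by rw [(key L).2]; omega⟩

/-- Every multigraph has a cut at least as large as the maximum cut of a disjoint union of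
cliques with at least as many edges. -/
theorem multi_lower {V E : Type} [Finite V] [Finite E] (ends : E → Sym2 V)
    (h : ∀ e, ¬ (ends e).IsDiag) : ∃ (S : Set V) (L : List ℕ),
    Nat.card E ≤ (L.map fun n => n.choose 2).sum ∧
      (L.map fun n => n ^ 2 / 4).sum ≤ {e | ∃ u ∈ S, ∃ v ∉ S, ends e = s(u, v)}.ncard := by
  classical
  have := Fintype.ofFinite V
  have := Fintype.ofFinite E
  let W : V → V → ℤ := fun i j => ((univ.filter fun e => ends e = s(i, j)).card : ℤ)
  have hW : SymW W := ⟨fun i j => by simp only [W, Sym2.eq_swap (a := i)], fun i => by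
    simp only [W, Nat.cast_eq_zero, card_eq_zero, filter_eq_empty_iff]
    intro e _ he
    exact h e (he ▸ Sym2.mk_isDiag_iff.2 rfl)⟩
  obtain ⟨x, hx, hG⟩ := main_good _ W hW univ rfl
  have ht : tot W univ = 2 * (Fintype.card E : ℕ) := by
    simp only [tot, W]
    exact_mod_cast count_tot ends h
  set S := univ.filter fun i => x i = 1 with hS
  rw [cut_eq hW S (fun i hi => (mem_filter.1 hi).2)
    (fun i hi => (hx i).resolve_left (by simpa [hS] using hi)), ht] at hG
  have hc : ∑ p ∈ S ×ˢ Sᶜ, W p.1 p.2 =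
      (({e | ∃ u ∈ (S : Set V), ∃ v ∉ (S : Set V), ends e = s(u, v)}.ncard : ℕ) : ℤ) := by
    have h1 := count_cut ends S
    simp only [W, mem_coe]
    exact_mod_cast h1
  rw [hc] at hG
  obtain ⟨L, h1, h2⟩ := (good_iff _ _).1 hG
  exact ⟨S, L, by rwa [Nat.card_eq_fintype_card], h2⟩

/-- A subgraph of a disjoint union of cliques with the prescribed number of edges. -/
theorem simple_upper (m : ℕ) (L : List ℕ) (h : m ≤ (L.map fun n => n.choose 2).sum) :
    ∃ (n : ℕ) (G : SimpleGraph (Fin n)), G.edgeSet.ncard = m ∧ ∀ S : Set (Fin n),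
      {e ∈ G.edgeSet | ∃ u ∈ S, ∃ v ∉ S, e = s(u, v)}.ncard ≤ (L.map fun n => n ^ 2 / 4).sum := by
  classical
  obtain ⟨N, W, a1, a2, a3, a4⟩ := ((good_iff m _).2 ⟨L, h, le_rfl⟩).sw.fin
  obtain ⟨G, hG⟩ : ∃ G : SimpleGraph (Fin N), ∀ i j, G.Adj i j ↔ W i j = 1 :=
    ⟨SimpleGraph.fromRel fun i j => W i j = 1, fun i j => by
      rw [SimpleGraph.fromRel_adj, a1.symm j i, or_self]
      exact ⟨fun h => h.2, fun h => ⟨fun h' => by
        rw [h', a1.diag] at h; exact zero_ne_one h, h⟩⟩⟩
  have hW : ∀ i j, W i j =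
      ((univ.filter fun e : G.edgeSet => e.1 = s(i, j)).card : ℤ) := fun i j => by
    by_cases h : G.Adj i j
    · have : (univ.filter fun e : G.edgeSet => e.1 = s(i, j)) = {⟨s(i, j), h⟩} := by
        ext e; simp [Subtype.ext_iff]
      rw [this, card_singleton]
      exact (hG i j).1 h
    · have : (univ.filter fun e : G.edgeSet => e.1 = s(i, j)) = ∅ := by
        rw [filter_eq_empty_iff]
        intro e _ he
        exact h (by have := e.2; rwa [he] at this)
      rw [this, card_empty]
      exact (a2 i j).resolve_right fun h' => h ((hG i j).2 h')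
  refine ⟨N, G, ?_, fun S => ?_⟩
  · have h1 := count_tot (fun e : G.edgeSet => e.1) fun e => G.not_isDiag_of_mem_edgeSet e.2
    have h2 : tot W univ = 2 * (Fintype.card G.edgeSet : ℕ) := by
      simp only [tot, hW]
      exact_mod_cast h1
    rw [← Nat.card_coe_set_eq, Nat.card_eq_fintype_card]
    omega
  · have h1 := a4 (fun i => if i ∈ S.toFinset then 1 else -1) fun i => by
      by_cases h : i ∈ S.toFinset <;> simp only [h, if_true, if_false, true_or, or_true]
    rw [cut_eq a1 S.toFinset (fun i hi => if_pos hi) (fun i hi => if_neg (mem_compl.1 hi))] at h1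
    have h2 := count_cut (fun e : G.edgeSet => e.1) S.toFinset
    have h3 : {e ∈ G.edgeSet | ∃ u ∈ S, ∃ v ∉ S, e = s(u, v)} = Subtype.val ''
        {e : G.edgeSet | ∃ u ∈ S.toFinset, ∃ v ∉ S.toFinset, e.1 = s(u, v)} := by
      ext e; simp
      tauto
    rw [h3, Set.ncard_image_of_injective _ Subtype.val_injective]
    have h4 : ∑ p ∈ S.toFinset ×ˢ S.toFinsetᶜ, W p.1 p.2 =
        (({e : G.edgeSet | ∃ u ∈ S.toFinset, ∃ v ∉ S.toFinset, e.1 = s(u, v)}.ncard : ℕ) : ℤ) := by
      simp only [hW]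
      exact_mod_cast h2
    omega

end Pool.Agent.Lib.MP_5bcad1_co
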