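import Pool.Agent.Lib.MP_5bcad1_co.Basic

namespace Pool.Agent.Lib.MP_5bcad1_co

/-- Bounded universal quantifier as a Boolean loop. -/
def allLt (f : ℕ → Bool) : ℕ → Bool
  | 0 => true
  | n + 1 => f n && allLt f n

lemma allLt_spec {f : ℕ → Bool} : ∀ {n : ℕ}, allLt f n = true → ∀ i < n, f i = true
  | 0, _, i, hi => absurd hi (Nat.not_lt_zero i)
  | n + 1, h, i, hi => by
    simp only [allLt, Bool.and_eq_true] at h
    rcases Nat.lt_succ_iff_lt_or_eq.1 hi with h' | h'
    · exact allLt_spec h.2 i h'
    · rw [h']; exact h.1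

lemma cast_half (n : ℕ) : (n : ℤ) * ((n : ℤ) - 1) = 2 * ((n * (n - 1) / 2 : ℕ) : ℤ) := by
  have h := Nat.two_mul_div_two_of_even (Nat.even_mul_pred_self n)
  rcases Nat.eq_zero_or_pos n with rfl | hn
  · simp
  · have : ((n - 1 : ℕ) : ℤ) = (n : ℤ) - 1 := by omega
    rw [← this]
    exact_mod_cast h.symm

lemma cast_quarter (n : ℕ) : (n : ℤ) ^ 2 - (n : ℤ) % 2 = 4 * ((n * n / 4 : ℕ) : ℤ) := by
  obtain ⟨k, rfl | rfl⟩ := Nat.even_or_odd' n
  · have : 2 * k * (2 * k) / 4 = k * k := by
      rw [show 2 * k * (2 * k) = 4 * (k * k) by ring]; omega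
    rw [this]; push_cast
    have : (2 * (k : ℤ)) % 2 = 0 := by omega
    rw [this]; ring
  · have : (2 * k + 1) * (2 * k + 1) / 4 = k * k + k := by
      rw [show (2 * k + 1) * (2 * k + 1) = 4 * (k * k + k) + 1 by ring]; omega
    rw [this]; push_cast
    have : (2 * (k : ℤ) + 1) % 2 = 1 := by omega
    rw [this]; ring

lemma good_nat (n : ℕ) : Good (2 * ((n * (n - 1) / 2 : ℕ) : ℤ)) (4 * ((n * n / 4 : ℕ) : ℤ)) :=
  (good_single n).mono (le_of_eq (cast_half n).symm) (le_of_eq (cast_quarter n))

/-- Table of the optimal number of edges for cut budget `c ≤ 460`. -/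
def tabl : ℕ := 48893976591843229921819370727333411291991706935723184691115714854391225594764386653248597499368568254853005237431421163536733144271872192947483475494407765147636864497677810851596495666660523680274532775664713683544918232091510617335790995174048194634739809259041807900790560795360094554302767434137703234272835255218079939974210066162207898723230893401818113607412163012438303390702530157551333860433073631878692640052224631725929011725291056943609421292596917133233616593277745557363883367104664206358558159138725948466600416084549903239211508289619946468644899643206676173231914539659952824519659749520682343508751549395658815723817415634975339149752171436739424250271033353050218311507109519648861901205645930982372281348864473349537365231569739631807266365443595799790786648490283001406192272734378901553664848215762157184345154174525576896200316690622401171796357313248262294033464100968785986182969540019661775346274080925812129210752058866075557634491846931336359790175076371393840230769901289612060146232476531137749495910938225057903095991296631868486053590240711842008468732807775550861523671866281299359823260496104202723780750120977942013605881802147907422541472089153931455888193097509596581038423284835938439979932560154407773494190283296591120880380432977728701460436029803956262444381443461940030548060406703581163027605416784330672194262173809124826412351090774047196160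

def Mx (c : ℕ) : ℕ := (tabl >>> (10 * c)) % 1024

lemma Mx_check : allLt (fun c => allLt (fun n =>
    decide (n * n / 4 ≤ c → n * (n - 1) / 2 + Mx (c - n * n / 4) ≤ Mx c)) 44) 461 = true := by
  decide +kernel

lemma Mx_step {c n : ℕ} (hc : c ≤ 460) (hn : n * n / 4 ≤ c) :
    n * (n - 1) / 2 + Mx (c - n * n / 4) ≤ Mx c := by
  have h44 : n < 44 := by
    by_contra h
    have : 44 * 44 ≤ n * n := Nat.mul_le_mul (by omega) (by omega)
    omega
  have := allLt_spec (allLt_spec Mx_check c (by omega)) n h44
  exact of_decide_eq_true this hn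

lemma list_le_Mx : ∀ (L : List ℕ) (c : ℕ), c ≤ 460 →
    (L.map fun n : ℕ => (n : ℤ) ^ 2 - (n : ℤ) % 2).sum ≤ 4 * (c : ℤ) →
    0 ≤ (L.map fun n : ℕ => (n : ℤ) ^ 2 - (n : ℤ) % 2).sum ∧
    (L.map fun n : ℕ => (n : ℤ) * ((n : ℤ) - 1)).sum ≤ 2 * (Mx c : ℤ)
  | [], c, _, _ => by simp
  | n :: L, c, hc, h => by
    simp only [List.map_cons, List.sum_cons] at h ⊢
    rw [cast_quarter] at h ⊢
    rw [cast_half]
    have h0 := (list_le_Mx L c hc (by linarith [Int.natCast_nonneg (n * n / 4)])).1
    have hn : n * n / 4 ≤ c := by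
      have : ((n * n / 4 : ℕ) : ℤ) ≤ c := by linarith
      exact_mod_cast this
    have h1 := (list_le_Mx L (c - n * n / 4) (by omega) (by rw [Nat.cast_sub hn]; linarith)).2
    have h2 : ((n * (n - 1) / 2 : ℕ) : ℤ) + (Mx (c - n * n / 4) : ℤ) ≤ (Mx c : ℤ) := by
      exact_mod_cast Mx_step hc hn
    exact ⟨by linarith [Int.natCast_nonneg (n * n / 4)], by linarith⟩

lemma Good.le_Mx {a b : ℤ} (h : Good a b) {c : ℕ} (hc : c ≤ 460) (hb : b ≤ 4 * (c : ℤ)) :
    a ≤ 2 * (Mx c : ℤ) := by
  obtain ⟨L, h1, h2⟩ := h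
  exact h1.trans (list_le_Mx L c hc (h2.trans hb)).2

/-- A vertex with excess degree `e` is compatible with the two inductive bounds. -/
def allowed (t c m e : ℕ) : Bool :=
  decide (m ≤ e + t - 1 + Mx (c - (e + t) / 2)) &&
    (decide (e = 0) || decide (m + 2 ≤ 2 * (e + t - 1) + Mx (c - (e + t - 1))))

/-- The largest allowed excess degree below `n` (zero if there is none). -/
def jmax (t c m : ℕ) : ℕ → ℕ
  | 0 => 0
  | n + 1 => if allowed t c m n then n else jmax t c m n

lemma le_jmax {t c m e : ℕ} (h : allowed t c m e = true) : ∀ n, e < n → e ≤ jmax t c m n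
  | 0, hn => absurd hn (Nat.not_lt_zero e)
  | n + 1, hn => by
    unfold jmax
    split_ifs with h'
    · omega
    · refine le_jmax h n ?_
      rcases Nat.lt_succ_iff_lt_or_eq.1 hn with h'' | h''
      · exact h''
      · rw [← h''] at h'; exact absurd h h'

/-- The exceptional parameters are eliminated by this test. -/
def kill (t β c m : ℕ) : Bool :=
  decide (c ≤ 460) && decide (2 * β + 2 ≤ t) && decide (t * (t - 1) / 2 < m) &&
    (allLt (fun ν => decide (t * (t - 1) / 2 + (β * (2 * ν + 1) +
        (t - 2 * ν - 4) * jmax t c m (β + 1) + 2 * β) < m)) β ||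
      (decide (jmax t c m (β + 1) = 0) && decide (3 * β + 2 ≤ t) && decide (4 * β ≤ t + 1)))

def chkT (c q : ℕ) : ℕ → Bool
  | 0 => true
  | t + 1 => decide (q * t < 2 * c - q) ||
      ((decide (t < 2) || decide (2 * (2 * c - q) < t * (t - 1)) ||
        decide (q * (t - 1 + t % 2) < 2 * c - q) || decide (4 * q < t + 4 * (t / 2)) ||
        kill t (q - t / 2) c (2 * c - q)) && chkT c q t)

lemma chkT_spec {c q t : ℕ} (ht : 2 ≤ t) (h1 : t * (t - 1) ≤ 2 * (2 * c - q))
    (h2 : 2 * c - q ≤ q * (t - 1 + t % 2)) (h3 : t + 4 * (t / 2) ≤ 4 * q) :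
    ∀ n, chkT c q n = true → t < n → kill t (q - t / 2) c (2 * c - q) = true
  | 0, _, hn => absurd hn (Nat.not_lt_zero t)
  | n + 1, h, hn => by
    simp only [chkT, Bool.or_eq_true, Bool.and_eq_true, decide_eq_true_eq] at h
    rcases h with h | ⟨h, h'⟩
    · have : q * (t - 1 + t % 2) ≤ q * n := Nat.mul_le_mul_left q (by omega)
      omega
    · rcases Nat.lt_succ_iff_lt_or_eq.1 hn with h'' | h''
      · exact chkT_spec ht h1 h2 h3 n h' h''
      · subst h''
        rcases h with (((h | h) | h) | h) | h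
        · omega
        · omega
        · omega
        · omega
        · exact h

def chkQ (c : ℕ) : ℕ → Bool
  | 0 => true
  | q + 1 => decide (4 * q * q + 5 * q < 6 * c) || (chkT c q (4 * q / 3 + 2) && chkQ c q)

lemma chkQ_spec {c q : ℕ} (hq : 6 * c ≤ 4 * q * q + 5 * q) :
    ∀ n, chkQ c n = true → q < n → chkT c q (4 * q / 3 + 2) = true
  | 0, _, hn => absurd hn (Nat.not_lt_zero q)
  | n + 1, h, hn => by
    simp only [chkQ, Bool.or_eq_true, Bool.and_eq_true, decide_eq_true_eq] at h
    rcases h with h | ⟨h, h'⟩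
    · have : q * q ≤ n * n := Nat.mul_le_mul (by omega) (by omega)
      nlinarith
    · rcases Nat.lt_succ_iff_lt_or_eq.1 hn with h'' | h''
      · exact chkQ_spec hq n h' h''
      · rw [h'']; exact h

/-- The deficiency reached by one large clique and an optimal remainder. -/
def dfc (n r : ℕ) : ℕ := 2 * (n * n / 4 + r) - (n * (n - 1) / 2 + Mx r)

def chkNR (n r : ℕ) : Bool :=
  decide (4 * dfc n r * dfc n r ≤ 9 * (n * n / 4 + r)) && chkQ (n * n / 4 + r) (dfc n r)

lemma chk_all : allLt (fun n => allLt (chkNR n) ((n + 1) / 2)) 113 = true := by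
  decide +kernel

lemma Mx_check' : ∀ r < 57, r = 0 ∨ ∃ n < 16, 2 ≤ n ∧ n * n / 4 ≤ r ∧
    Mx r ≤ n * (n - 1) / 2 + Mx (r - n * n / 4) := by
  decide +kernel

lemma Mx_zero : Mx 0 = 0 := by decide +kernel

lemma good_Mx (r : ℕ) : r < 57 → Good (2 * (Mx r : ℤ)) (4 * (r : ℤ)) := by
  induction r using Nat.strong_induction_on with
  | _ r ih =>
    intro hr
    rcases Mx_check' r hr with rfl | ⟨n, -, h2, h3, h4⟩
    · simpa [Mx_zero] using good_zero
    · have h5 : 1 ≤ n * n / 4 := by
        have : 2 * 2 ≤ n * n := Nat.mul_le_mul h2 h2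
        omega
      refine ((good_nat n).add (ih (r - n * n / 4) (by omega) (by omega))).mono ?_ (le_of_eq ?_)
      · have : (Mx r : ℤ) ≤ ((n * (n - 1) / 2 : ℕ) : ℤ) + (Mx (r - n * n / 4) : ℤ) := by
          exact_mod_cast h4
        linarith
      · rw [Nat.cast_sub h3]; ring

lemma quarter_succ (n : ℕ) : (n + 1) * (n + 1) / 4 = n * n / 4 + (n + 1) / 2 := by
  obtain ⟨k, rfl | rfl⟩ := Nat.even_or_odd' n
  · rw [show 2 * k * (2 * k) = 4 * (k * k) by ring,
      show (2 * k + 1) * (2 * k + 1) = 4 * (k * k + k) + 1 by ring]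
    omega
  · rw [show (2 * k + 1 + 1) * (2 * k + 1 + 1) = 4 * (k * k + 2 * k + 1) by ring,
      show (2 * k + 1) * (2 * k + 1) = 4 * (k * k + k) + 1 by ring]
    omega

lemma exists_nr : ∀ c : ℕ, ∃ n r : ℕ, c = n * n / 4 + r ∧ r < (n + 1) / 2
  | 0 => ⟨1, 0, by norm_num, by norm_num⟩
  | c + 1 => by
    obtain ⟨n, r, h1, h2⟩ := exists_nr c
    by_cases h : r + 1 < (n + 1) / 2
    · exact ⟨n, r + 1, by omega, h⟩
    · exact ⟨n + 1, 0, by rw [quarter_succ]; omega, by omega⟩

/-- The numerical dichotomy. -/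
lemma deficiency (c : ℕ) : ∃ E : ℕ, Good (2 * (2 * (c : ℤ) - E)) (4 * (c : ℤ)) ∧
    4 * E * E ≤ 9 * c ∧ ∀ q < E, 6 * c ≤ 4 * q * q + 5 * q →
      chkT c q (4 * q / 3 + 2) = true := by
  induction c using Nat.strong_induction_on with
  | _ c ih =>
    obtain ⟨n, r, hc, hr⟩ := exists_nr c
    by_cases hn : n < 113
    · have h := allLt_spec (allLt_spec chk_all n hn) r hr
      simp only [chkNR, Bool.and_eq_true, decide_eq_true_eq, ← hc] at h
      refine ⟨dfc n r, ?_, h.1, fun q hq hq' => chkQ_spec hq' _ h.2 hq⟩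
      refine ((good_nat n).add (good_Mx r (by omega))).mono ?_ (le_of_eq ?_)
      · unfold dfc
        rw [← hc]
        omega
      · rw [hc]; push_cast; ring
    · have hn' : 113 ≤ n := by omega
      have hq4 : n * n ≤ 4 * (n * n / 4) + 1 := by
        have := cast_quarter n
        have h2 : ((n * n : ℕ) : ℤ) = (n : ℤ) ^ 2 := by push_cast; ring
        omega
      have h113 : 113 * n ≤ n * n := Nat.mul_le_mul_right n hn'
      obtain ⟨E, hE, hE', -⟩ := ih r (by omega)
      have hE10 : 10 * E ≤ n := by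
        by_contra h
        have h1 : n * n ≤ (10 * E) * (10 * E) := Nat.mul_le_mul (by omega) (by omega)
        have h2 : (10 * E) * (10 * E) = 25 * (4 * E * E) := by ring
        omega
      refine ⟨n / 2 + E, ?_, ?_, ?_⟩
      · refine ((good_nat n).add hE).mono (le_of_eq ?_) (le_of_eq ?_)
        · have h1 := cast_half n
          have h2 := cast_quarter n
          have h3 : (n : ℤ) * ((n : ℤ) - 1) = (n : ℤ) ^ 2 - n := by ring
          rw [hc]
          omega
        · rw [hc]; push_cast; ring
      · have h1 : 10 * (n / 2 + E) ≤ 6 * n := by omega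
        have h2 : (10 * (n / 2 + E)) * (10 * (n / 2 + E)) ≤ (6 * n) * (6 * n) :=
          Nat.mul_le_mul h1 h1
        have h3 : (10 * (n / 2 + E)) * (10 * (n / 2 + E)) =
          25 * (4 * (n / 2 + E) * (n / 2 + E)) := by ring
        have h4 : (6 * n) * (6 * n) = 36 * (n * n) := by ring
        omega
      · intro q hq hq'
        exfalso
        have h1 : 10 * q + 10 ≤ 6 * n := by omega
        have h2 : (10 * q + 10) * (10 * q + 10) ≤ (6 * n) * (6 * n) := Nat.mul_le_mul h1 h1
        have h3 : (10 * q + 10) * (10 * q + 10) = 25 * (4 * q * q) + 200 * q + 100 := by ring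
        have h4 : (6 * n) * (6 * n) = 36 * (n * n) := by ring
        omega

lemma numeric {c q t : ℕ} (ht : 2 ≤ t) (h1 : t * (t - 1) ≤ 2 * (2 * c - q))
    (h2 : 2 * c - q ≤ q * (t - 1 + t % 2)) (h3 : t + 4 * (t / 2) ≤ 4 * q) :
    Good (2 * (2 * (c : ℤ) - q)) (4 * (c : ℤ)) ∨ kill t (q - t / 2) c (2 * c - q) = true := by
  obtain ⟨E, hE, -, hE'⟩ := deficiency c
  by_cases h : q < E
  · right
    refine chkT_spec ht h1 h2 h3 _ (hE' q h ?_) (by omega)
    have h4 : 3 * (t - 1 + t % 2) ≤ 4 * q + 2 := by omega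
    have h5 : q * (3 * (t - 1 + t % 2)) ≤ q * (4 * q + 2) := Nat.mul_le_mul_left q h4
    have h6 : q * (3 * (t - 1 + t % 2)) = 3 * (q * (t - 1 + t % 2)) := by ring
    have h7 : q * (4 * q + 2) = 4 * q * q + 2 * q := by ring
    omega
  · left
    exact hE.mono (by omega) le_rfl

end Pool.Agent.Lib.MP_5bcad1_co
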