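import Pool.Agent.Lib.MP_5bcad1_co.Stage2
import Pool.Agent.Lib.MP_5bcad1_co.Numeric

open Finset

set_option linter.unusedSectionVars false

namespace Pool.Agent.Lib.MP_5bcad1_co

variable {α : Type} [DecidableEq α] {W : α → α → ℤ} {S : Finset α}

lemma vertex_allowed (hW : SymW W)
    (hIH : ∀ W' : α → α → ℤ, SymW W' → ∀ D : Finset α, D.card < S.card →
      ∃ x, Sg x ∧ Good (tot W' D) (tot W' D - qf W' D x))
    {m c q : ℕ} (hm : tot W S = 2 * m) (hcq : 2 * c = m + q)
    (hopt : ∀ y, Sg y → -2 * (q : ℤ) ≤ qf W S y) (hc : c ≤ 460)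
    {v : α} (hv : v ∈ S) {e : ℕ} (he : ∑ j ∈ S, W v j = e + S.card - 1) :
    allowed S.card c m e = true := by
  have hcard : (S.erase v).card < S.card := card_erase_lt_of_mem hv
  have hn := notMem_erase v S
  have hs : ∑ j ∈ S, W v j = ∑ j ∈ S.erase v, W v j := by
    rw [← add_sum_erase S _ hv, hW.diag, zero_add]
  simp only [allowed, Bool.and_eq_true, Bool.or_eq_true, decide_eq_true_eq]
  constructor
  · obtain ⟨x, hx, hG⟩ := hIH W hW _ hcard
    set s := ∑ j ∈ S.erase v, W v j * x j with hsdef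
    have hpar : ∃ k, ∑ j ∈ S.erase v, W v j - s = 2 * k := by
      refine ⟨∑ j ∈ S.erase v, if x j = 1 then 0 else W v j, ?_⟩
      rw [hsdef, ← sum_sub_distrib, mul_sum]
      refine sum_congr rfl fun j _ => ?_
      rcases hx j with h | h <;> simp [h]
      ring
    obtain ⟨k, hk⟩ := hpar
    obtain ⟨σ, hσ, hσs⟩ : ∃ σ : ℤ, (σ = 1 ∨ σ = -1) ∧ σ * s ≤ -((∑ j ∈ S.erase v, W v j) % 2) := by
      rcases le_total s 0 with h | h
      · exact ⟨1, Or.inl rfl, by omega⟩
      · exact ⟨-1, Or.inr rfl, by omega⟩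
    have hc' : ∀ i ∈ S.erase v, Function.update x v σ i = x i := fun i hi => by
      simp [ne_of_mem_erase hi]
    have hy : Sg (Function.update x v σ) := fun i => by
      by_cases hi : i = v
      · subst hi; simpa using hσ
      · simpa [hi] using hx i
    have h2 := hopt _ hy
    conv_rhs at h2 => rw [← insert_erase hv]
    rw [qf_insert hW hn, qf_congr hc', Function.update_self,
      sum_congr rfl fun j hj => by rw [hc' j hj], ← hsdef, mul_assoc] at h2
    have h3 := tot_erase hW hv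
    have h4 := hG.le_Mx (c := c - (e + S.card) / 2) (by omega) (by omega)
    omega
  · by_cases h0 : e = 0
    · exact Or.inl h0
    right
    obtain ⟨u, hu, hu2⟩ : ∃ u ∈ S.erase v, 2 ≤ W v u := by
      by_contra h
      push Not at h
      have : ∑ j ∈ S.erase v, W v j ≤ ∑ j ∈ S.erase v, (1 : ℤ) :=
        sum_le_sum fun j hj => by have := h j hj; omega
      rw [sum_const, card_erase_of_mem hv, nsmul_eq_mul, mul_one] at this
      omega
    obtain ⟨x, hx, hG⟩ := hIH (contr W u v (-1)) (contr_symW hW u v (-1)) _ hcard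
    obtain ⟨⟨y, hy, hy'⟩, ht⟩ := contr_lift hW (mem_of_mem_erase hu) hv (ne_of_mem_erase hu)
      (Or.inr rfl) hx
    have h2 := hopt _ hy
    have h3 := hW.symm u v
    have h4 := hG.le_Mx (c := c - (e + S.card - 1)) (by omega) (by omega)
    omega

/-- The excess weights. -/
def exc (W : α → α → ℤ) : α → α → ℤ := fun i j => if i = j then 0 else W i j - 1

lemma exc_symW (hW : SymW W) : SymW (exc W) := by
  refine ⟨fun i j => ?_, fun i => by simp [exc]⟩
  unfold exc
  by_cases h : i = j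
  · simp [h]
  · rw [if_neg h, if_neg (Ne.symm h), hW.symm i j]

lemma exc_row (hW : SymW W) {v : α} (hv : v ∈ S) :
    ∑ j ∈ S, exc W v j = ∑ j ∈ S, W v j - (S.card - 1) := by
  rw [← add_sum_erase S _ hv, ← add_sum_erase S _ hv, hW.diag, (exc_symW hW).diag,
    sum_congr rfl fun j hj => (show exc W v j = W v j - 1 by
      simp [exc, (ne_of_mem_erase hj).symm]), sum_sub_distrib, sum_const, card_erase_of_mem hv]
  have := card_pos.2 ⟨v, hv⟩
  simp only [nsmul_eq_mul]
  omega

lemma exc_tot (hW : SymW W) (S : Finset α) :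
    tot (exc W) S = tot W S - S.card * (S.card - 1) := by
  unfold tot
  rw [sum_congr rfl fun v hv => exc_row hW hv, sum_sub_distrib, sum_const, nsmul_eq_mul]

lemma exceptional (hW : SymW W) (h1 : ∀ i ∈ S, ∀ j ∈ S, i ≠ j → 1 ≤ W i j)
    (hIH : ∀ W' : α → α → ℤ, SymW W' → ∀ D : Finset α, D.card < S.card →
      ∃ x, Sg x ∧ Good (tot W' D) (tot W' D - qf W' D x))
    {m c q β : ℕ} (hm : tot W S = 2 * m) (hcq : 2 * c = m + q)
    (hopt : ∀ y, Sg y → -2 * (q : ℤ) ≤ qf W S y)
    (hβ : ∀ B ⊆ S, Even B.card → ∀ γ : ℤ, PP W B (B.card + 2 * γ) → γ ≤ β)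
    (hk : kill S.card β c m = true) :
    ∃ y, Sg y ∧ Good (tot W S) (tot W S - qf W S y) := by
  simp only [kill, Bool.and_eq_true, Bool.or_eq_true, decide_eq_true_eq] at hk
  obtain ⟨⟨⟨hc, ht⟩, hh⟩, hk⟩ := hk
  set j := jmax S.card c m (β + 1) with hj
  have hω := exc_symW hW
  have h0 : ∀ i ∈ S, ∀ k ∈ S, 0 ≤ exc W i k := fun i hi k hk => by
    unfold exc
    split_ifs with h
    · exact le_rfl
    · have := h1 i hi k hk h; omega
  obtain ⟨M, hM, hpos, hR0, hex⟩ := exists_maxMat S (exc W) fun i hi k hk _ => h0 i hi k hk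
  set B := supp M with hB
  set R := S \ B with hR
  have hBS : B ⊆ S := hM.supp_subset
  have hBc : B.card = 2 * M.card := hM.card_supp
  have hRc : R.card + 2 * M.card = S.card := by
    rw [hR, card_sdiff_of_subset hBS, ← hBc]
    have := card_le_card hBS
    omega
  have hsum : ∑ p ∈ M, exc W p.1 p.2 ≤ β := by
    refine hβ B hBS ⟨M.card, by omega⟩ _ ((hM.pp hW).mono (le_of_eq ?_))
    have e0 : ∑ p ∈ M, 2 * W p.1 p.2 = ∑ p ∈ M, (2 + 2 * exc W p.1 p.2) :=
      sum_congr rfl fun p hp => by simp only [exc, hM.ne p hp, if_false]; ring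
    rw [hBc, e0, sum_add_distrib, sum_const, ← mul_sum]
    simp only [nsmul_eq_mul]
    push_cast
    ring
  have hν : M.card ≤ β := by
    have : ∑ p ∈ M, (1 : ℤ) ≤ ∑ p ∈ M, exc W p.1 p.2 := sum_le_sum fun p hp => hpos p hp
    rw [sum_const, nsmul_eq_mul, mul_one] at this
    omega
  set δ : α → ℤ := fun r => ∑ k ∈ S, exc W r k with hδ
  have hδB : ∀ r ∈ R, δ r = ∑ k ∈ B, exc W r k := by
    intro r hr
    have : ∑ k ∈ R, exc W r k = 0 := sum_eq_zero fun k hk => by
      by_cases h : r = k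
      · rw [h]; exact hω.diag k
      · exact hR0 r hr k hk h
    rw [hδ]
    simp only
    rw [← sum_sdiff hBS, this, zero_add]
  have hδ0 : ∀ r ∈ S, 0 ≤ δ r := fun r hr => sum_nonneg fun k hk => h0 r hr k hk
  have hδ2 : ∀ r ∈ R, ∀ r' ∈ R, r ≠ r' → δ r + δ r' ≤ 2 * β := by
    intro r hr r' hr' hne
    rw [hδB r hr, hδB r' hr', hM.sum_supp, hM.sum_supp, ← sum_add_distrib]
    have : ∑ p ∈ M, (exc W r p.1 + exc W r p.2 + (exc W r' p.1 + exc W r' p.2)) ≤
        ∑ p ∈ M, 2 * exc W p.1 p.2 := sum_le_sum fun p hp => by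
      have a1 := hex p hp r hr r' hr' hne
      have a2 := hex p hp r' hr' r hr hne.symm
      rw [hω.symm r, hω.symm r, hω.symm r', hω.symm r']
      linarith
    rw [← mul_sum] at this
    linarith
  have hRne : R.Nonempty := card_pos.1 (by omega)
  obtain ⟨r0, hr0, hmax⟩ := exists_max_image R δ hRne
  have hj' : ∀ r ∈ R.erase r0, δ r ≤ j := by
    intro r hr
    have hrR := mem_of_mem_erase hr
    have hrS : r ∈ S := (mem_sdiff.1 hrR).1
    have a1 := hδ2 r hrR r0 hr0 (ne_of_mem_erase hr)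
    have a2 := hmax r hrR
    have a3 := hδ0 r hrS
    obtain ⟨e, he⟩ := Int.eq_ofNat_of_zero_le a3
    have a4 : allowed S.card c m e = true := by
      refine vertex_allowed hW hIH hm hcq hopt hc hrS ?_
      have := exc_row hW hrS
      have a5 : δ r = ∑ k ∈ S, exc W r k := rfl
      omega
    have := le_jmax a4 (β + 1) (by omega)
    omega
  rcases hk with hk | ⟨⟨hk1, hk2⟩, hk3⟩
  · exfalso
    have htot : tot (exc W) S = tot (exc W) B + 2 * ∑ r ∈ R, δ r := by
      have e1 := tot_union hω (disjoint_sdiff_self_left (x := B) (y := S))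
      rw [sdiff_union_of_subset hBS] at e1
      have e2 : tot (exc W) R = 0 := sum_eq_zero fun r hr => sum_eq_zero fun k hk => by
        by_cases h : r = k
        · rw [h]; exact hω.diag k
        · exact hR0 r hr k hk h
      rw [e1, e2, sum_congr rfl hδB, zero_add]
    have e3 := exc_tot hW S
    have e4 := cast_half S.card
    rcases Nat.eq_zero_or_pos M.card with hM0 | hM0
    · have hB0 : B = ∅ := card_eq_zero.1 (by omega)
      have e5 : ∑ r ∈ R, δ r = 0 := sum_eq_zero fun r hr => by rw [hδB r hr, hB0, sum_empty]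
      have e6 : tot (exc W) B = 0 := by rw [hB0]; simp [tot]
      omega
    · obtain ⟨ν, hν'⟩ : ∃ ν, M.card = ν + 1 := ⟨M.card - 1, by omega⟩
      have hk' := of_decide_eq_true (allLt_spec hk ν (by omega))
      have e5 : tot (exc W) B ≤ 2 * ((β * (2 * ν + 1) : ℕ) : ℤ) := by
        obtain ⟨K, ⟨x, hx, hK⟩, hK'⟩ := avg_even hW M.card B hBc
        obtain ⟨⟨m', hm'⟩, c', hc'⟩ := parity hW hx B
        have a1 := hβ B hBS ⟨M.card, by omega⟩ (2 * c' - m' - M.card) ⟨x, hx, by omega⟩
        have a2 : K ≤ 2 * (ν + 1) + 2 * β := by omega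
        rw [exc_tot hW, hBc, hν']
        rw [hBc, hν'] at hK'
        push_cast at hK' ⊢
        have a3 : (2 * ((ν : ℤ) + 1) - 1) * K ≤ (2 * ((ν : ℤ) + 1) - 1) * (2 * (ν + 1) + 2 * β) :=
          mul_le_mul_of_nonneg_left a2 (by omega)
        linarith
      obtain ⟨r1, hr1⟩ : (R.erase r0).Nonempty := card_pos.1 (by rw [card_erase_of_mem hr0]; omega)
      have e6 : ∑ r ∈ R, δ r ≤ (((S.card - 2 * ν - 4) * j : ℕ) : ℤ) + 2 * β := by
        rw [← add_sum_erase R _ hr0, ← add_sum_erase _ _ hr1]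
        have a1 := hδ2 r0 hr0 r1 (mem_of_mem_erase hr1) (ne_of_mem_erase hr1).symm
        have a2 : ∑ r ∈ (R.erase r0).erase r1, δ r ≤ ∑ r ∈ (R.erase r0).erase r1, (j : ℤ) :=
          sum_le_sum fun r hr => hj' r (mem_of_mem_erase hr)
        rw [sum_const, card_erase_of_mem hr1, card_erase_of_mem hr0, nsmul_eq_mul] at a2
        have a3 : R.card - 1 - 1 = S.card - 2 * ν - 4 := by omega
        rw [a3] at a2
        rw [Nat.cast_mul]
        linarith
      omega
  · have hz : ∀ z ∈ R.erase r0, ∀ u ∈ S, u ≠ z → W u z = 1 := by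
      intro z hz u hu hne
      have hzS : z ∈ S := (mem_sdiff.1 (mem_of_mem_erase hz)).1
      have a1 := hj' z hz
      have a2 : exc W z u ≤ δ z := single_le_sum (fun k hk => h0 z hzS k hk) hu
      have a3 := h1 u hu z hzS hne
      simp only [exc, hne.symm, if_false] at a2
      rw [hW.symm z u] at a2
      omega
    refine stage2 hW h1 (β := β) (by positivity) hβ (by omega) hIH (Z0 := R.erase r0)
      ((erase_subset _ _).trans sdiff_subset) ?_ ?_ ?_
    · rw [card_erase_of_mem hr0]; omega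
    · intro z hz1 z' hz' hne
      exact hz z' hz' z (mem_sdiff.1 (mem_of_mem_erase hz1)).1 hne
    · intro z hz1 z' hz' u hu b1 b2
      rw [hz z hz1 u hu b1, hz z' hz' u hu b2]

/-- The main theorem: every integer weighting has a signing whose cut is dominated by a
disjoint union of cliques. -/
theorem main_good (n : ℕ) : ∀ (W : α → α → ℤ), SymW W → ∀ S : Finset α, S.card = n →
    ∃ x, Sg x ∧ Good (tot W S) (tot W S - qf W S x) := by
  induction n using Nat.strong_induction_on with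
  | _ n ih =>
    intro W hW S hS
    have hIH : ∀ W' : α → α → ℤ, SymW W' → ∀ D : Finset α, D.card < S.card →
        ∃ x, Sg x ∧ Good (tot W' D) (tot W' D - qf W' D x) :=
      fun W' hW' D hD => ih D.card (by omega) W' hW' D rfl
    by_cases h1 : ∀ i ∈ S, ∀ j ∈ S, i ≠ j → 1 ≤ W i j
    swap
    · push Not at h1
      obtain ⟨u, hu, v, hv, huv, hw⟩ := h1
      obtain ⟨x, hx, hG⟩ := hIH (contr W u v 1) (contr_symW hW u v 1) _ (card_erase_lt_of_mem hv)
      obtain ⟨⟨y, hy, hy'⟩, ht⟩ := contr_lift hW hu hv huv (Or.inl rfl) hx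
      exact ⟨y, hy, hG.mono (by omega) (by omega)⟩
    obtain ⟨x, hx, hopt⟩ := exists_opt W S
    obtain ⟨⟨m, hm⟩, c, hc⟩ := parity hW hx S
    have hbase := hopt _ (PP_base hW _ S rfl h1)
    have hexc : 0 ≤ tot (exc W) S := sum_nonneg fun i hi => sum_nonneg fun k hk => by
      unfold exc
      split_ifs with h
      · exact le_rfl
      · have := h1 i hi k hk h; omega
    rw [exc_tot hW, cast_half] at hexc
    obtain ⟨m, rfl⟩ := Int.eq_ofNat_of_zero_le (show 0 ≤ m by omega)
    obtain ⟨q, hq⟩ := Int.eq_ofNat_of_zero_le (show 0 ≤ 2 * c - m by omega)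
    obtain ⟨c, rfl⟩ := Int.eq_ofNat_of_zero_le (show 0 ≤ c by omega)
    obtain ⟨β, hβ'⟩ := Int.eq_ofNat_of_zero_le (show 0 ≤ (q : ℤ) - (S.card / 2 : ℕ) by omega)
    have hβ : ∀ B ⊆ S, Even B.card → ∀ γ : ℤ, PP W B (B.card + 2 * γ) → γ ≤ β := by
      intro B hB he γ h
      have := hopt _ (gain_ext hW h1 hB he h)
      omega
    by_cases ht : 4 * β + 1 ≤ S.card
    · obtain ⟨Z, hZ, hc', hz1, hz2⟩ := stage1 hW h1 hβ (by omega)
      exact stage2 hW h1 (β := β) (by positivity) hβ (by omega) hIH hZ hc' hz1 hz2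
    have hopt' : ∀ y, Sg y → -2 * (q : ℤ) ≤ qf W S y := fun y hy => by
      have := hopt (-qf W S y) ⟨y, hy, by simp⟩
      omega
    by_cases ht2 : 2 ≤ S.card
    swap
    · have : tot W S = 0 := by
        have : S.card = 0 ∨ S.card = 1 := by omega
        rcases this with h | h
        · rw [card_eq_zero.1 h]; simp [tot]
        · obtain ⟨u, rfl⟩ := card_eq_one.1 h
          simp [tot, hW.diag]
      exact ⟨x, hx, good_zero.mono (by omega) (by omega)⟩
    have hT1 : 2 * c - q ≤ q * (S.card - 1 + S.card % 2) := by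
      have : ∃ K, PP W S K ∧ tot W S ≤ ((S.card - 1 + S.card % 2 : ℕ) : ℤ) * K := by
        obtain ⟨k, hk | hk⟩ := Nat.even_or_odd' S.card
        · obtain ⟨K, hK, hK'⟩ := avg_even hW k S hk
          refine ⟨K, hK, ?_⟩
          have : ((S.card - 1 + S.card % 2 : ℕ) : ℤ) = (S.card : ℤ) - 1 := by omega
          rwa [this]
        · obtain ⟨K, hK, hK'⟩ := avg_odd hW k (by omega) S hk
          refine ⟨K, hK, ?_⟩
          have : ((S.card - 1 + S.card % 2 : ℕ) : ℤ) = (S.card : ℤ) := by omega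
          rwa [this]
      obtain ⟨K, hK, hK'⟩ := this
      have a1 := hopt K hK
      have a2 : ((S.card - 1 + S.card % 2 : ℕ) : ℤ) * K ≤
          ((S.card - 1 + S.card % 2 : ℕ) : ℤ) * (2 * q) :=
        mul_le_mul_of_nonneg_left (by omega) (by positivity)
      have a3 : ((S.card - 1 + S.card % 2 : ℕ) : ℤ) * (2 * q) =
          2 * ((q * (S.card - 1 + S.card % 2) : ℕ) : ℤ) := by
        rw [Nat.cast_mul]; ring
      omega
    have hT0 : S.card * (S.card - 1) ≤ 2 * (2 * c - q) := by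
      have h := Nat.two_mul_div_two_of_even (Nat.even_mul_pred_self S.card)
      omega
    rcases numeric ht2 hT0 hT1 (by omega) with h | h
    · exact ⟨x, hx, h.mono (by omega) (by omega)⟩
    · have e1 : q - S.card / 2 = β := by omega
      have e2 : 2 * c - q = m := by omega
      rw [e1, e2] at h
      exact exceptional hW h1 hIH hm (by omega) hopt' hβ h

end Pool.Agent.Lib.MP_5bcad1_co
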