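import Pool.Agent.Lib.MP_5bcad1_co.Stage1

open Finset

set_option linter.unusedSectionVars false

namespace Pool.Agent.Lib.MP_5bcad1_co

variable {α : Type} [DecidableEq α]

/-- Context of the second stage: `Z` is a class of twins with row `a`. -/
structure Ctx (W : α → α → ℤ) (S Z : Finset α) (a : α → ℤ) : Prop where
  sym : SymW W
  one : ∀ i ∈ S, ∀ j ∈ S, i ≠ j → 1 ≤ W i j
  sub : Z ⊆ S
  row : ∀ z ∈ Z, ∀ v ∈ S, v ≠ z → W v z = a v
  aZ : ∀ z ∈ Z, a z = 1
  pos : ∀ v ∈ S, 1 ≤ a v

def Gain (W : α → α → ℤ) (D F : Finset α) (γ : ℤ) : Prop :=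
  ∃ B ⊆ D ∪ F, Even B.card ∧ PP W B (B.card + 2 * γ) ∧ ((B ∩ F).card : ℤ) ≤ γ

def GG (W : α → α → ℤ) (Z D : Finset α) (γ : ℤ) : Prop :=
  ∀ F ⊆ Z, Gain W D F (min (F.card : ℤ) γ)

lemma gain_zero (W : α → α → ℤ) (D F : Finset α) : Gain W D F 0 :=
  ⟨∅, empty_subset _, by simp, by simpa using PP_empty W, by simp⟩

lemma GG_zero (W : α → α → ℤ) (Z D : Finset α) : GG W Z D 0 := by
  intro F _
  rw [min_eq_right (by positivity)]
  exact gain_zero W D F

lemma GG.union {W : α → α → ℤ} (hW : SymW W) {Z D1 D2 : Finset α} {γ1 γ2 : ℤ}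
    (hd : Disjoint D1 D2) (hd2 : Disjoint D2 Z) (h1 : 0 ≤ γ1) (h2 : 0 ≤ γ2)
    (g1 : GG W Z D1 γ1) (g2 : GG W Z D2 γ2) : GG W Z (D1 ∪ D2) (γ1 + γ2) := by
  intro F hF
  obtain ⟨B1, hB1, he1, hp1, hc1⟩ := g1 F hF
  by_cases h : (F.card : ℤ) ≤ γ1
  · rw [min_eq_left h] at hp1 hc1
    rw [min_eq_left (by linarith)]
    exact ⟨B1, hB1.trans (union_subset_union_left subset_union_left), he1, hp1, hc1⟩
  push Not at h
  rw [min_eq_right h.le] at hp1 hc1
  have hcard : F.card - γ1.toNat ≤ (F \ B1).card := by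
    have := card_sdiff_add_card_inter F B1
    rw [inter_comm] at this
    omega
  obtain ⟨F2, hF2, hc2⟩ := exists_subset_card_eq hcard
  have hF2F : F2 ⊆ F := hF2.trans sdiff_subset
  obtain ⟨B2, hB2, he2, hp2, hc3⟩ := g2 F2 (hF2F.trans hF)
  have hdB : Disjoint B1 B2 := by
    rw [disjoint_left]
    intro v hv hv'
    rcases mem_union.1 (hB2 hv') with h' | h'
    · rcases mem_union.1 (hB1 hv) with h'' | h''
      · exact disjoint_left.1 hd h'' h'
      · exact disjoint_left.1 hd2 h' (hF h'')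
    · exact (mem_sdiff.1 (hF2 h')).2 hv
  refine ⟨B1 ∪ B2, ?_, ?_, ?_, ?_⟩
  · intro v hv
    rcases mem_union.1 hv with h' | h'
    · have := hB1 h'
      simp only [mem_union] at this ⊢; tauto
    · have := hB2 h'
      have a := @hF2F v
      simp only [mem_union] at this ⊢; tauto
  · rw [card_union_of_disjoint hdB]; exact he1.add he2
  · refine (PP.union hW hdB hp1 hp2).mono ?_
    rw [card_union_of_disjoint hdB]
    push_cast
    omega
  · have : (B1 ∪ B2) ∩ F ⊆ (B1 ∩ F) ∪ (B2 ∩ F2) := by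
      intro v hv
      simp only [mem_union, mem_inter] at hv ⊢
      rcases hv with ⟨h' | h', h''⟩
      · exact Or.inl ⟨h', h''⟩
      · rcases mem_union.1 (hB2 h') with h3 | h3
        · exact absurd (hF h'') (disjoint_left.1 hd2 h3)
        · exact Or.inr ⟨h', h3⟩
    have := (card_le_card this).trans (card_union_le _ _)
    omega

lemma starAdd {W : α → α → ℤ} (hW : SymW W) {u : α} (K : Finset α) :
    ∀ (F B : Finset α) (k : ℤ), K.card = F.card → u ∈ B → PP W B k → Disjoint K F →
      Disjoint B K → Disjoint B F → (∀ v ∈ K ∪ F, ∀ v' ∈ K ∪ F, v ≠ v' → W v v' = 1) →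
      (∀ w ∈ B, w ≠ u → ∀ v ∈ K ∪ F, W w v = 1) → (∀ r ∈ K, ∀ f ∈ F, W u r ≠ W u f) →
      PP W (B ∪ K ∪ F) (k + 4 * K.card) := by
  induction K using Finset.induction_on with
  | empty =>
    intro F B k hc _ hp _ _ _ _ _ _
    have : F = ∅ := card_eq_zero.1 (by simpa using hc.symm)
    simpa [this] using hp
  | insert r K hr ih =>
    intro F B k hc hu hp hKF hBK hBF h1 h2 h3
    rw [card_insert_of_notMem hr] at hc
    obtain ⟨f, hf⟩ : F.Nonempty := card_pos.1 (by omega)
    have hrF : r ∉ F := disjoint_left.1 hKF (mem_insert_self _ _)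
    have hrf : r ≠ f := fun h => hrF (h ▸ hf)
    have hrB : r ∉ B := disjoint_right.1 hBK (mem_insert_self _ _)
    have hfB : f ∉ B := disjoint_right.1 hBF hf
    have hfK : f ∉ K := fun h => disjoint_left.1 hKF (mem_insert_of_mem h) hf
    have mr : r ∈ insert r K ∪ F := by simp
    have mf : f ∈ insert r K ∪ F := by simp [hf]
    have h4 := addPair hW hp hu hrB hfB hrf (h1 r mr f mf hrf).ge (h3 r (by simp) f hf)
      fun w hw hwu => by rw [h2 w hw hwu r mr, h2 w hw hwu f mf]
    have hsub : K ∪ F.erase f ⊆ insert r K ∪ F :=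
      union_subset_union (subset_insert _ _) (erase_subset _ _)
    have h5 := ih (F.erase f) (insert r (insert f B)) (k + 4)
      (by rw [card_erase_of_mem hf]; omega) (by simp [hu]) h4
      (hKF.mono (subset_insert _ _) (erase_subset _ _))
      (by
        rw [disjoint_insert_left, disjoint_insert_left]
        exact ⟨hr, hfK, hBK.mono_right (subset_insert _ _)⟩)
      (by
        rw [disjoint_insert_left, disjoint_insert_left]
        exact ⟨fun h => hrF (mem_of_mem_erase h), notMem_erase _ _,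
          hBF.mono_right (erase_subset _ _)⟩)
      (fun v hv v' hv' => h1 v (hsub hv) v' (hsub hv'))
      (by
        intro w hw hwu v hv
        simp only [mem_insert] at hw
        rcases hw with rfl | rfl | hw
        · refine h1 _ mr v (hsub hv) ?_
          rintro rfl
          rcases mem_union.1 hv with h | h
          exacts [hr h, hrF (mem_of_mem_erase h)]
        · refine h1 _ mf v (hsub hv) ?_
          rintro rfl
          rcases mem_union.1 hv with h | h
          exacts [hfK h, notMem_erase _ _ h]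
        · exact h2 w hw hwu v (hsub hv))
      (fun r' hr' f' hf' => h3 r' (mem_insert_of_mem hr') f' (mem_of_mem_erase hf'))
    have e : insert r (insert f B) ∪ K ∪ F.erase f = B ∪ insert r K ∪ F := by
      ext v
      simp only [mem_union, mem_insert, mem_erase]
      constructor
      · rintro (((rfl | rfl | h) | h) | h) <;> tauto
      · by_cases hv : v = f <;> tauto
    rw [e] at h5
    refine h5.mono (le_of_eq ?_)
    rw [card_insert_of_notMem hr]
    push_cast; ring

variable {W : α → α → ℤ} {S Z : Finset α} {a : α → ℤ}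

lemma GG_pair (C : Ctx W S Z a) {v v' : α} (hne : v ≠ v') (h2 : 2 ≤ W v v')
    (hv : v ∉ Z) (hv' : v' ∉ Z) : GG W Z {v, v'} 1 := by
  intro F hF
  rcases Nat.eq_zero_or_pos F.card with h | h
  · rw [h]; simpa using gain_zero W _ F
  · rw [min_eq_right (by exact_mod_cast h)]
    refine ⟨{v, v'}, subset_union_left, by rw [card_pair hne]; exact even_two, ?_, ?_⟩
    · rw [card_pair hne]
      exact (PP_pair C.sym hne).mono (by push_cast; linarith)
    · have : ({v, v'} : Finset α) ∩ F = ∅ := by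
        refine disjoint_iff_inter_eq_empty.1 ?_
        rw [disjoint_insert_left, disjoint_singleton_left]
        exact ⟨fun h => hv (hF h), fun h => hv' (hF h)⟩
      simp [this]

/-- Generic star block. -/
lemma star_block (C : Ctx W S Z a) {u w : α} {K F : Finset α} (hu : u ∈ S \ Z) (hw : w ∈ S)
    (huw : u ≠ w) (hK : K ⊆ S \ Z) (hF : F ⊆ Z) (huK : u ∉ K) (hwK : w ∉ K) (hwF : w ∉ F)
    (hc : K.card = F.card) (hl : ∀ k ∈ K, a k = 1) (haw : a w = 1)
    (hind : ∀ k ∈ K, ∀ k' ∈ K, k ≠ k' → W k k' = 1) (hwk : ∀ k ∈ K, W w k = 1)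
    (hadj : ∀ k ∈ K, W u k ≠ a u) :
    ({u, w} ∪ K ∪ F).card = 2 + 2 * K.card ∧
      PP W ({u, w} ∪ K ∪ F) (2 * W u w + 4 * K.card) := by
  have hKF : Disjoint K F := by
    rw [disjoint_left]; intro v hv hv'; exact (mem_sdiff.1 (hK hv)).2 (hF hv')
  have hBK : Disjoint ({u, w} : Finset α) K := by
    rw [disjoint_insert_left, disjoint_singleton_left]; exact ⟨huK, hwK⟩
  have huF : u ∉ F := fun h => (mem_sdiff.1 hu).2 (hF h)
  have hBF : Disjoint ({u, w} : Finset α) F := by
    rw [disjoint_insert_left, disjoint_singleton_left]; exact ⟨huF, hwF⟩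
  constructor
  · rw [card_union_of_disjoint (disjoint_union_left.2 ⟨hBF, hKF⟩), card_union_of_disjoint hBK,
      card_pair huw]
    omega
  · refine starAdd C.sym (u := u) K F {u, w} _ hc (by simp) (PP_pair C.sym huw) hKF hBK hBF ?_ ?_ ?_
    · intro v hv v' hv' hne
      rcases mem_union.1 hv with h | h <;> rcases mem_union.1 hv' with h' | h'
      · exact hind v h v' h' hne
      · rw [C.row v' (hF h') v (mem_sdiff.1 (hK h)).1 hne, hl v h]
      · rw [C.sym.symm, C.row v (hF h) v' (mem_sdiff.1 (hK h')).1 hne.symm, hl v' h']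
      · rw [C.row v' (hF h') v (C.sub (hF h)) hne, C.aZ v (hF h)]
    · intro w' hw' hne v hv
      have : w' = w := by simpa [hne] using hw'
      subst this
      rcases mem_union.1 hv with h | h
      · exact hwk v h
      · rw [C.row v (hF h) w' hw (fun h' => hwF (h' ▸ h)), haw]
    · intro r hr f hf
      rw [C.row f (hF hf) u (mem_sdiff.1 hu).1 (fun h' => huF (h' ▸ hf))]
      exact hadj r hr

lemma GG_star (C : Ctx W S Z a) {u : α} {K : Finset α} (hu : u ∈ S \ Z) (hK : K ⊆ S \ Z)
    (huK : u ∉ K) (hl : ∀ k ∈ K, a k = 1) (hind : ∀ k ∈ K, ∀ k' ∈ K, k ≠ k' → W k k' = 1)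
    (hadj : ∀ k ∈ K, W u k ≠ a u) : GG W Z (insert u K) (a u - 1 + K.card) := by
  intro F hF
  have hau := C.pos u (mem_sdiff.1 hu).1
  by_cases h0 : min (F.card : ℤ) (a u - 1 + K.card) = 0
  · rw [h0]; exact gain_zero W _ F
  have hFZ : ∀ v ∈ S \ Z, v ∉ F := fun v hv h => (mem_sdiff.1 hv).2 (hF h)
  by_cases hb : 2 ≤ a u
  · obtain ⟨f, hf⟩ : F.Nonempty := card_pos.1 (by omega)
    obtain ⟨K', hK', hcK⟩ := exists_subset_card_eq (s := K) (n := min K.card (F.card - 1))
      (min_le_left _ _)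
    obtain ⟨F', hF', hcF⟩ := exists_subset_card_eq (s := F.erase f)
      (n := min K.card (F.card - 1)) (by rw [card_erase_of_mem hf]; exact min_le_right _ _)
    have hF'F : F' ⊆ F := hF'.trans (erase_subset _ _)
    have huf : u ≠ f := fun h => hFZ u hu (h ▸ hf)
    obtain ⟨h1, h2⟩ := star_block C hu (C.sub (hF hf)) huf (hK'.trans hK) (hF'F.trans hF)
      (fun h => huK (hK' h)) (fun h => hFZ f (hK (hK' h)) hf) (fun h => by simpa using hF' h)
      (hcK.trans hcF.symm) (fun k hk => hl k (hK' hk)) (C.aZ f (hF hf))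
      (fun k hk k' hk' => hind k (hK' hk) k' (hK' hk'))
      (fun k hk => by
        rw [C.sym.symm, C.row f (hF hf) k (mem_sdiff.1 (hK (hK' hk))).1
          (fun h => hFZ k (hK (hK' hk)) (h ▸ hf)), hl k (hK' hk)])
      (fun k hk => hadj k (hK' hk))
    refine ⟨_, ?_, by rw [h1]; exact (even_two).add (even_two_mul _), h2.mono ?_, ?_⟩
    · intro v hv
      have a1 := @hK' v
      have a2 := @hF'F v
      simp only [mem_union, mem_insert, mem_singleton] at hv ⊢
      rcases hv with ((rfl | rfl) | h) | h <;> tauto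
    · rw [h1, C.row f (hF hf) u (mem_sdiff.1 hu).1 huf]
      have := card_pos.2 ⟨f, hf⟩
      omega
    · have : ({u, f} ∪ K' ∪ F') ∩ F ⊆ insert f F' := by
        intro v hv
        simp only [mem_union, mem_insert, mem_singleton, mem_inter] at hv ⊢
        rcases hv with ⟨((rfl | rfl) | h) | h, h'⟩
        · exact absurd h' (hFZ _ hu)
        · tauto
        · exact absurd h' (hFZ _ (hK (hK' h)))
        · tauto
      have h3 := (card_le_card this).trans (card_insert_le _ _)
      have := card_pos.2 ⟨f, hf⟩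
      omega
  · have hau1 : a u = 1 := by omega
    obtain ⟨k, hk⟩ : K.Nonempty := card_pos.1 (by omega)
    obtain ⟨K', hK', hcK⟩ := exists_subset_card_eq (s := K.erase k)
      (n := min (K.card - 1) F.card) (by rw [card_erase_of_mem hk]; exact min_le_left _ _)
    obtain ⟨F', hF', hcF⟩ := exists_subset_card_eq (s := F)
      (n := min (K.card - 1) F.card) (min_le_right _ _)
    have hK'K : K' ⊆ K := hK'.trans (erase_subset _ _)
    have huk : u ≠ k := fun h => huK (h ▸ hk)
    have hkK' : k ∉ K' := fun h => by simpa using hK' h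
    obtain ⟨h1, h2⟩ := star_block C hu (mem_sdiff.1 (hK hk)).1 huk (hK'K.trans hK) (hF'.trans hF)
      (fun h => huK (hK'K h)) hkK' (fun h => hFZ k (hK hk) (hF' h))
      (hcK.trans hcF.symm) (fun k hk => hl k (hK'K hk)) (hl k hk)
      (fun k hk k' hk' => hind k (hK'K hk) k' (hK'K hk'))
      (fun k' hk' => hind k hk k' (hK'K hk') (fun h => hkK' (h ▸ hk')))
      (fun k hk => hadj k (hK'K hk))
    have hw2 : 2 ≤ W u k := by
      have b1 := C.one u (mem_sdiff.1 hu).1 k (mem_sdiff.1 (hK hk)).1 huk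
      have b2 := hadj k hk
      omega
    refine ⟨_, ?_, by rw [h1]; exact (even_two).add (even_two_mul _), h2.mono ?_, ?_⟩
    · intro v hv
      have a1 := @hK'K v
      have a2 := @hF' v
      simp only [mem_union, mem_insert, mem_singleton] at hv ⊢
      rcases hv with ((rfl | rfl) | h) | h <;> tauto
    · rw [h1]
      have := card_pos.2 ⟨k, hk⟩
      omega
    · have : ({u, k} ∪ K' ∪ F') ∩ F ⊆ F' := by
        intro v hv
        simp only [mem_union, mem_insert, mem_singleton, mem_inter] at hv ⊢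
        rcases hv with ⟨((rfl | rfl) | h) | h, h'⟩
        · exact absurd h' (hFZ _ hu)
        · exact absurd h' (hFZ _ (hK hk))
        · exact absurd h' (hFZ _ (hK (hK'K h)))
        · tauto
      have h3 := card_le_card this
      have := card_pos.2 ⟨k, hk⟩
      omega

lemma forest (C : Ctx W S Z a) (par : α → α) (idx : α → ℕ) (n : ℕ) :
    ∀ D Ω : Finset α, D.card = n → Ω ⊆ D → D ⊆ S \ Z → (∀ v ∈ D, v ∉ Ω → a v = 1) →
      (∀ v ∈ D, v ∉ Ω → par v ∈ D ∧ W (par v) v ≠ a (par v) ∧ idx (par v) < idx v) →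
      ∃ γ : ℤ, 0 ≤ γ ∧ 2 * ∑ u ∈ Ω, (a u - 1) + D.card - Ω.card ≤ 2 * γ ∧ GG W Z D γ := by
  induction n using Nat.strong_induction_on with
  | _ n ih =>
    intro D Ω hn hΩ hD hl hpar
    rcases D.eq_empty_or_nonempty with rfl | hne
    · have : Ω = ∅ := subset_empty.1 hΩ
      exact ⟨0, le_rfl, by simp [this], GG_zero _ _ _⟩
    have hdZ : ∀ E ⊆ D, Disjoint E Z := fun E hE => by
      rw [disjoint_left]; intro v hv; exact (mem_sdiff.1 (hD (hE hv))).2
    obtain ⟨u, huD, hu1, hu2⟩ : ∃ u ∈ D, (u ∈ Ω ∨ ((D \ Ω).filter fun v => par v = u).Nonempty) ∧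
        ∀ w ∈ D, w ∉ Ω → par w ∉ (D \ Ω).filter fun v => par v = u := by
      rcases (D \ Ω).eq_empty_or_nonempty with h | h
      · obtain ⟨u, hu⟩ := hne
        refine ⟨u, hu, Or.inl ?_, by simp [h]⟩
        by_contra h'
        have : u ∈ D \ Ω := mem_sdiff.2 ⟨hu, h'⟩
        simp [h] at this
      · obtain ⟨v, hv, hmax⟩ := exists_max_image (D \ Ω) (fun v => idx (par v)) h
        have hv' := mem_sdiff.1 hv
        refine ⟨par v, (hpar v hv'.1 hv'.2).1, Or.inr ⟨v, mem_filter.2 ⟨hv, rfl⟩⟩, ?_⟩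
        intro w hw hw' hmem
        rw [mem_filter, mem_sdiff] at hmem
        have b1 := hmax w (mem_sdiff.2 ⟨hw, hw'⟩)
        have b2 := (hpar _ hmem.1.1 hmem.1.2).2.2
        rw [hmem.2] at b2
        omega
    set K := (D \ Ω).filter fun v => par v = u with hKdef
    have hKm : ∀ k ∈ K, k ∈ D ∧ k ∉ Ω ∧ par k = u := fun k hk => by
      rw [hKdef, mem_filter, mem_sdiff] at hk; tauto
    have hKD : K ⊆ D := fun k hk => (hKm k hk).1
    by_cases hind : ∀ k ∈ K, ∀ k' ∈ K, k ≠ k' → W k k' = 1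
    · have huK : u ∉ K := fun h => by
        have b1 := hKm u h
        have b2 := (hpar u b1.1 b1.2.1).2.2
        rw [b1.2.2] at b2
        omega
      have hsub : insert u K ⊆ D := insert_subset huD hKD
      have g1 := GG_star C (hD huD) (hKD.trans hD) huK
        (fun k hk => hl k (hKm k hk).1 (hKm k hk).2.1) hind
        (fun k hk => by
          have b1 := hKm k hk
          have b2 := (hpar k b1.1 b1.2.1).2.1
          rwa [b1.2.2] at b2)
      have hc : (D \ insert u K).card + (K.card + 1) = D.card := by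
        rw [card_sdiff_of_subset hsub, card_insert_of_notMem huK]
        have := card_le_card hsub
        rw [card_insert_of_notMem huK] at this
        omega
      obtain ⟨γ, hγ0, hγ, g2⟩ := ih _ (by omega) (D \ insert u K) (Ω.erase u) rfl
        (by
          intro v hv
          rw [mem_erase] at hv
          simp only [mem_sdiff, mem_insert, not_or]
          exact ⟨hΩ hv.2, hv.1, fun h => (hKm v h).2.1 hv.2⟩)
        (sdiff_subset.trans hD)
        (by
          intro v hv hv'
          simp only [mem_sdiff, mem_insert, not_or, mem_erase, not_and] at hv hv'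
          exact hl v hv.1 (hv' hv.2.1))
        (by
          intro v hv hv'
          simp only [mem_sdiff, mem_insert, not_or, mem_erase, not_and] at hv hv'
          have hvΩ := hv' hv.2.1
          obtain ⟨b1, b2, b3⟩ := hpar v hv.1 hvΩ
          refine ⟨?_, b2, b3⟩
          simp only [mem_sdiff, mem_insert, not_or]
          refine ⟨b1, fun h => hv.2.2 ?_, hu2 v hv.1 hvΩ⟩
          exact mem_filter.2 ⟨mem_sdiff.2 ⟨hv.1, hvΩ⟩, h⟩)
      have hau := C.pos u (mem_sdiff.1 (hD huD)).1
      have g3 := GG.union C.sym (disjoint_sdiff (s := insert u K) (t := D))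
        (hdZ _ sdiff_subset) (by omega) hγ0 g1 g2
      rw [union_sdiff_of_subset hsub] at g3
      refine ⟨_, by omega, ?_, g3⟩
      by_cases huΩ : u ∈ Ω
      · rw [← add_sum_erase Ω _ huΩ]
        rw [card_erase_of_mem huΩ] at hγ
        have := card_pos.2 ⟨u, huΩ⟩
        omega
      · rw [erase_eq_of_notMem huΩ] at hγ
        have := card_pos.2 (hu1.resolve_left huΩ)
        have := hl u huD huΩ
        omega
    · push Not at hind
      obtain ⟨k, hk, k', hk', hne', hw⟩ := hind
      have hkS := mem_sdiff.1 (hD (hKD hk))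
      have hkS' := mem_sdiff.1 (hD (hKD hk'))
      have hw2 : 2 ≤ W k k' := by
        have := C.one k hkS.1 k' hkS'.1 hne'
        omega
      have g1 := GG_pair C hne' hw2 hkS.2 hkS'.2
      have hsub : ({k, k'} : Finset α) ⊆ D := insert_subset (hKD hk) (singleton_subset_iff.2 (hKD hk'))
      have hc : (D \ {k, k'}).card + 2 = D.card := by
        rw [card_sdiff_of_subset hsub, card_pair hne']
        have := card_le_card hsub
        rw [card_pair hne'] at this
        omega
      obtain ⟨γ, hγ0, hγ, g2⟩ := ih _ (by omega) (D \ {k, k'}) Ω rfl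
        (by
          intro v hv
          simp only [mem_sdiff, mem_insert, mem_singleton, not_or]
          exact ⟨hΩ hv, fun h => (hKm k hk).2.1 (h ▸ hv), fun h => (hKm k' hk').2.1 (h ▸ hv)⟩)
        (sdiff_subset.trans hD)
        (fun v hv hv' => hl v (mem_sdiff.1 hv).1 hv')
        (by
          intro v hv hv'
          obtain ⟨b1, b2, b3⟩ := hpar v (mem_sdiff.1 hv).1 hv'
          refine ⟨?_, b2, b3⟩
          simp only [mem_sdiff, mem_insert, mem_singleton, not_or]
          have b4 := hu2 v (mem_sdiff.1 hv).1 hv'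
          exact ⟨b1, fun h => b4 (h ▸ hk), fun h => b4 (h ▸ hk')⟩)
      have g3 := GG.union C.sym (disjoint_sdiff (s := {k, k'}) (t := D))
        (hdZ _ sdiff_subset) zero_le_one hγ0 g1 g2
      rw [union_sdiff_of_subset hsub] at g3
      exact ⟨_, by omega, by omega, g3⟩

lemma maxRooted (adj : α → α → Prop) {T Ω : Finset α} (hΩ : Ω ⊆ T) :
    ∃ D : Finset α, Ω ⊆ D ∧ D ⊆ T ∧ (∃ (par : α → α) (idx : α → ℕ),
      ∀ v ∈ D, v ∉ Ω → par v ∈ D ∧ adj (par v) v ∧ idx (par v) < idx v) ∧
      ∀ u ∈ D, ∀ v ∈ T, v ∉ D → ¬ adj u v := by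
  classical
  obtain ⟨D, hD, hmax⟩ := exists_max_image (T.powerset.filter fun D => Ω ⊆ D ∧
    ∃ (par : α → α) (idx : α → ℕ),
      ∀ v ∈ D, v ∉ Ω → par v ∈ D ∧ adj (par v) v ∧ idx (par v) < idx v) card
    ⟨Ω, mem_filter.2 ⟨mem_powerset.2 hΩ, Subset.refl _, id, fun _ => 0,
      fun v hv hv' => absurd hv hv'⟩⟩
  rw [mem_filter, mem_powerset] at hD
  obtain ⟨hDT, hΩD, par, idx, hp⟩ := hD
  refine ⟨D, hΩD, hDT, ⟨par, idx, hp⟩, fun u hu v hv hvD hadj => ?_⟩
  have := hmax (insert v D) (mem_filter.2 ⟨mem_powerset.2 (insert_subset hv hDT),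
    hΩD.trans (subset_insert _ _), Function.update par v u, Function.update idx v (idx u + 1), ?_⟩)
  · rw [card_insert_of_notMem hvD] at this
    omega
  · intro w hw hw'
    have huv : u ≠ v := fun h => hvD (h ▸ hu)
    rcases mem_insert.1 hw with rfl | hw
    · simp [hu, hadj, huv]
    · have hwv : w ≠ v := fun h => hvD (h ▸ hw)
      obtain ⟨b1, b2, b3⟩ := hp w hw hw'
      have hpv : par w ≠ v := fun h => hvD (h ▸ b1)
      simp [hwv, hpv, b1, b2, b3]

end Pool.Agent.Lib.MP_5bcad1_co
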