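import Pool.Agent.Lib.MP_5bcad1_co.Avg

open Finset

set_option linter.unusedSectionVars false

namespace Pool.Agent.Lib.MP_5bcad1_co

variable {α : Type} [DecidableEq α]

lemma addPair {W : α → α → ℤ} (hW : SymW W) {B : Finset α} {k : ℤ} (h : PP W B k) {u r r' : α}
    (hu : u ∈ B) (hr : r ∉ B) (hr' : r' ∉ B) (hne : r ≠ r') (h1 : 1 ≤ W r r')
    (hd : W u r ≠ W u r') (he : ∀ w ∈ B, w ≠ u → W w r = W w r') :
    PP W (insert r (insert r' B)) (k + 4) := by
  obtain ⟨x, hx, hk⟩ := h
  set c := (W u r - W u r') * x u with hc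
  have hc0 : c ≠ 0 := by
    rw [hc]
    refine mul_ne_zero (sub_ne_zero.2 hd) ?_
    rcases hx u with h | h <;> simp [h]
  obtain ⟨σ, hσ, hσc⟩ : ∃ σ : ℤ, (σ = 1 ∨ σ = -1) ∧ σ * c ≤ -1 := by
    rcases lt_or_gt_of_ne hc0 with h | h
    · exact ⟨1, Or.inl rfl, by linarith⟩
    · exact ⟨-1, Or.inr rfl, by linarith⟩
  set y : α → ℤ := fun i => if i = r then σ else if i = r' then -σ else x i with hy
  have hyB : ∀ i ∈ B, y i = x i := by
    intro i hi
    have a1 : i ≠ r := fun h => hr (h ▸ hi)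
    have a2 : i ≠ r' := fun h => hr' (h ▸ hi)
    simp [hy, a1, a2]
  have hyr : y r = σ := by simp [hy]
  have hyr' : y r' = -σ := by simp [hy, hne.symm]
  refine ⟨y, fun i => ?_, ?_⟩
  · simp only [hy]
    split_ifs
    · exact hσ
    · rcases hσ with h | h <;> simp [h]
    · exact hx i
  · rw [qf_insert hW (by simp [hne, hr]), qf_insert hW hr', sum_insert hr', qf_congr hyB, hyr,
      hyr', sum_congr rfl fun j hj => by rw [hyB j hj],
      sum_congr rfl (f := fun j => W r j * y j) fun j hj => by rw [hyB j hj]]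
    have e : ∑ j ∈ B, W r j * x j - ∑ j ∈ B, W r' j * x j = c := by
      rw [← sum_sub_distrib, ← add_sum_erase B _ hu, sum_eq_zero]
      · rw [hc, hW.symm r u, hW.symm r' u]; ring
      · intro j hj
        rw [hW.symm r j, hW.symm r' j, he j (mem_of_mem_erase hj) (ne_of_mem_erase hj)]; ring
    have hσ2 : σ * σ = 1 := by rcases hσ with h | h <;> simp [h]
    have : 2 * -σ * ∑ j ∈ B, W r' j * x j + 2 * σ * (W r r' * -σ + ∑ j ∈ B, W r j * x j) =
        2 * (σ * c) - 2 * W r r' := by
      rw [← e]; linear_combination (-2 * W r r') * hσ2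
    linarith

lemma peel {W : α → α → ℤ} (hW : SymW W) {u : α} (m : ℕ) :
    ∀ (R B : Finset α) (k : ℤ), R.card = m → u ∈ B → Disjoint B R →
      (∀ r ∈ R, ∀ r' ∈ R, r ≠ r' → W r r' = 1) →
      (∀ w ∈ B, w ≠ u → ∀ r ∈ R, ∀ r' ∈ R, W w r = W w r') → PP W B k →
      ∃ R' ⊆ R, ∃ n : ℕ, R.card = R'.card + 2 * n ∧ (∀ r ∈ R', ∀ r' ∈ R', W u r = W u r') ∧
        PP W (B ∪ (R \ R')) (k + 4 * n) := by
  induction m using Nat.strong_induction_on with
  | _ m ih =>
    intro R B k hm hu hd h1 he hk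
    by_cases hc : ∀ r ∈ R, ∀ r' ∈ R, W u r = W u r'
    · exact ⟨R, Subset.refl _, 0, by simp, hc, by simpa using hk⟩
    push Not at hc
    obtain ⟨r, hr, r', hr', hne⟩ := hc
    have hrr : r ≠ r' := fun h => hne (h ▸ rfl)
    have hrB : r ∉ B := disjoint_right.1 hd hr
    have hrB' : r' ∉ B := disjoint_right.1 hd hr'
    have h2 := addPair hW hk hu hrB hrB' hrr (h1 r hr r' hr' hrr).ge hne
      fun w hw hwu => he w hw hwu r hr r' hr'
    have hr'' : r' ∈ R.erase r := mem_erase.2 ⟨hrr.symm, hr'⟩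
    have hcard : ((R.erase r).erase r').card + 2 = R.card := by
      rw [card_erase_of_mem hr'', card_erase_of_mem hr]
      have := card_pos.2 ⟨r', hr''⟩
      rw [card_erase_of_mem hr] at this
      omega
    have hsub : (R.erase r).erase r' ⊆ R := (erase_subset _ _).trans (erase_subset _ _)
    obtain ⟨R', hR', n, hn, hc', hp⟩ := ih _ (by omega) ((R.erase r).erase r')
      (insert r (insert r' B)) (k + 4) rfl (by simp [hu])
      (by
        rw [disjoint_left]
        intro i hi hi'
        simp only [mem_insert] at hi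
        simp only [mem_erase] at hi'
        rcases hi with h | h | h
        · exact hi'.2.1 h
        · exact hi'.1 h
        · exact disjoint_left.1 hd h hi'.2.2)
      (fun a ha b hb hab => h1 a (hsub ha) b (hsub hb) hab)
      (by
        intro w hw hwu a ha b hb
        simp only [mem_insert] at hw
        have ha' := ha
        have hb' := hb
        simp only [mem_erase] at ha' hb'
        rcases hw with rfl | rfl | h
        · rw [h1 _ hr a (hsub ha) (Ne.symm ha'.2.1), h1 _ hr b (hsub hb) (Ne.symm hb'.2.1)]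
        · rw [h1 _ hr' a (hsub ha) (Ne.symm ha'.1), h1 _ hr' b (hsub hb) (Ne.symm hb'.1)]
        · exact he w h hwu a (hsub ha) b (hsub hb))
      h2
    refine ⟨R', hR'.trans hsub, n + 1, by omega, hc', ?_⟩
    have : insert r (insert r' B) ∪ ((R.erase r).erase r' \ R') = B ∪ (R \ R') := by
      have a1 : r ∉ R' := fun h => by simpa using hR' h
      have a2 : r' ∉ R' := fun h => by simpa using hR' h
      ext i
      simp only [mem_union, mem_insert, mem_sdiff, mem_erase]
      constructor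
      · rintro ((rfl | rfl | h) | h) <;> tauto
      · rintro (h | h)
        · tauto
        · by_cases b1 : i = r
          · tauto
          · by_cases b2 : i = r' <;> tauto
    rw [this] at hp
    refine hp.mono (le_of_eq ?_)
    push_cast; ring

lemma stage1 {W : α → α → ℤ} (hW : SymW W) {S : Finset α}
    (h1 : ∀ i ∈ S, ∀ j ∈ S, i ≠ j → 1 ≤ W i j) {β : ℤ}
    (hβ : ∀ B ⊆ S, Even B.card → ∀ γ : ℤ, PP W B (B.card + 2 * γ) → γ ≤ β)
    (ht : 4 * β + 1 ≤ S.card) :
    ∃ Z ⊆ S, β + 1 ≤ Z.card ∧ (∀ z ∈ Z, ∀ z' ∈ Z, z ≠ z' → W z z' = 1) ∧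
      (∀ z ∈ Z, ∀ z' ∈ Z, ∀ u ∈ S, u ≠ z → u ≠ z' → W u z = W u z') := by
  classical
  obtain ⟨M, hM, hpos, hR0, hex⟩ := exists_maxMat S (fun i j => if 2 ≤ W i j then 1 else 0)
    (fun i _ j _ _ => by split_ifs <;> simp)
  set R := S \ supp M with hR
  have hW2 : ∀ p ∈ M, 2 ≤ W p.1 p.2 := fun p hp => by
    have := hpos p hp
    by_contra h
    simp [h] at this
  have hR1 : ∀ r ∈ R, ∀ r' ∈ R, r ≠ r' → W r r' = 1 := by
    intro r hr r' hr' hne
    have a := hR0 r hr r' hr' hne
    have b := h1 r (mem_sdiff.1 hr).1 r' (mem_sdiff.1 hr').1 hne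
    by_contra h
    have : 2 ≤ W r r' := by omega
    simp [this] at a
  have hex' : ∀ p ∈ M, ∀ r ∈ R, ∀ r' ∈ R, r ≠ r' → ¬ (2 ≤ W p.1 r ∧ 2 ≤ W p.2 r') := by
    rintro p hp r hr r' hr' hne ⟨a, b⟩
    have := hex p hp r hr r' hr' hne
    simp [a, b, hW2 p hp] at this
  set T := M.biUnion fun p => R.filter fun r => 2 ≤ W p.1 r ∧ 2 ≤ W p.2 r with hT
  have hTc : T.card ≤ M.card := by
    refine card_biUnion_le.trans ?_
    refine (sum_le_sum (g := fun _ => 1) fun p hp => ?_).trans (by simp)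
    refine card_le_one.2 fun a ha b hb => ?_
    rw [mem_filter] at ha hb
    by_contra hne
    exact hex' p hp a ha.1 b hb.1 hne ⟨ha.2.1, hb.2.2⟩
  set R' := R \ T with hR'
  have hR'R : R' ⊆ R := sdiff_subset
  have hone : ∀ p ∈ M, ∀ v, (v = p.1 ∨ v = p.2) → ∀ r ∈ R, ¬ 2 ≤ W v r → W v r = 1 := by
    intro p hp v hv r hr h
    have hv' : v ∈ supp M := mem_supp.2 ⟨p, hp, hv⟩
    have := h1 v (hM.supp_subset hv') r (mem_sdiff.1 hr).1
      (fun h' => (mem_sdiff.1 hr).2 (h' ▸ hv'))
    omega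
  have hside : ∀ p ∈ M, (∀ r ∈ R', W p.2 r = 1) ∨ (∀ r ∈ R', W p.1 r = 1) := by
    intro p hp
    by_contra hcon
    push Not at hcon
    obtain ⟨⟨r', hr', a⟩, ⟨r, hr, b⟩⟩ := hcon
    have a' : 2 ≤ W p.2 r' := by
      by_contra h; exact a (hone p hp _ (Or.inr rfl) r' (hR'R hr') h)
    have b' : 2 ≤ W p.1 r := by
      by_contra h; exact b (hone p hp _ (Or.inl rfl) r (hR'R hr) h)
    by_cases hrr : r = r'
    · subst hrr
      exact (mem_sdiff.1 hr).2 (mem_biUnion.2 ⟨p, hp, mem_filter.2 ⟨hR'R hr, b', a'⟩⟩)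
    · exact hex' p hp r (hR'R hr) r' (hR'R hr') hrr ⟨b', a'⟩
  have key : ∀ M' ⊆ M, ∃ R'' ⊆ R', ∃ n : ℕ, R'.card = R''.card + 2 * n ∧
      (∀ v ∈ supp M', ∀ r ∈ R'', ∀ r' ∈ R'', W v r = W v r') ∧
      PP W (supp M' ∪ (R' \ R'')) (4 * M'.card + 4 * n) := by
    intro M'
    induction M' using Finset.induction_on with
    | empty =>
      intro _
      exact ⟨R', Subset.refl _, 0, by simp, by simp [supp], by simpa [supp] using PP_empty W⟩
    | insert p M' hp ih =>
      intro hsub
      have hpM : p ∈ M := hsub (mem_insert_self _ _)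
      obtain ⟨R1, hR1', n1, hn1, hc1, hp1⟩ := ih ((subset_insert _ _).trans hsub)
      have hsupp : ∀ v ∈ supp (insert p M'), v ∉ R := fun v hv hv' => by
        obtain ⟨p', hp', h⟩ := mem_supp.1 hv
        exact (mem_sdiff.1 hv').2 (mem_supp.2 ⟨p', hsub hp', h⟩)
      have hdB : Disjoint ({p.1, p.2} : Finset α) R1 := by
        rw [disjoint_left]
        intro v hv hv'
        exact hsupp v (by rw [supp_insert]; exact mem_union_left _ hv) (hR'R (hR1' hv'))
      have hpp : PP W {p.1, p.2} 4 :=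
        (PP_pair hW (hM.ne p hpM)).mono (by linarith [hW2 p hpM])
      have hone' : ∀ r ∈ R1, ∀ r' ∈ R1, r ≠ r' → W r r' = 1 := fun r hr r' hr' =>
        hR1 r (hR'R (hR1' hr)) r' (hR'R (hR1' hr'))
      obtain ⟨R2, hR2, n2, hn2, hc2, hp2⟩ : ∃ R2 ⊆ R1, ∃ n : ℕ, R1.card = R2.card + 2 * n ∧
          (∀ v ∈ ({p.1, p.2} : Finset α), ∀ r ∈ R2, ∀ r' ∈ R2, W v r = W v r') ∧
          PP W ({p.1, p.2} ∪ (R1 \ R2)) (4 + 4 * n) := by
        rcases hside p hpM with h | h
        · obtain ⟨R2, hR2, n2, hn2, hc2, hp2⟩ := peel hW (u := p.1) _ R1 {p.1, p.2} 4 rfl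
            (by simp) hdB hone' (by
              intro w hw hwu r hr r' hr'
              have : w = p.2 := by simpa [hwu] using hw
              rw [this, h r (hR1' hr), h r' (hR1' hr')]) hpp
          refine ⟨R2, hR2, n2, hn2, ?_, hp2⟩
          intro v hv r hr r' hr'
          simp only [mem_insert, mem_singleton] at hv
          rcases hv with rfl | rfl
          · exact hc2 r hr r' hr'
          · rw [h r (hR1' (hR2 hr)), h r' (hR1' (hR2 hr'))]
        · obtain ⟨R2, hR2, n2, hn2, hc2, hp2⟩ := peel hW (u := p.2) _ R1 {p.1, p.2} 4 rfl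
            (by simp) hdB hone' (by
              intro w hw hwu r hr r' hr'
              have : w = p.1 := by simpa [hwu] using hw
              rw [this, h r (hR1' hr), h r' (hR1' hr')]) hpp
          refine ⟨R2, hR2, n2, hn2, ?_, hp2⟩
          intro v hv r hr r' hr'
          simp only [mem_insert, mem_singleton] at hv
          rcases hv with rfl | rfl
          · rw [h r (hR1' (hR2 hr)), h r' (hR1' (hR2 hr'))]
          · exact hc2 r hr r' hr'
      refine ⟨R2, hR2.trans hR1', n1 + n2, by omega, ?_, ?_⟩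
      · intro v hv r hr r' hr'
        rw [supp_insert, mem_union] at hv
        rcases hv with hv | hv
        · exact hc2 v hv r hr r' hr'
        · exact hc1 v hv r (hR2 hr) r' (hR2 hr')
      · have hdis : Disjoint (({p.1, p.2} : Finset α) ∪ (R1 \ R2)) (supp M' ∪ (R' \ R1)) := by
          have hd0 := (hM.subset hsub).disj_insert hp
          rw [disjoint_left]
          intro v hv hv'
          rw [mem_union] at hv hv'
          rcases hv with hv | hv <;> rcases hv' with hv' | hv'
          · exact disjoint_left.1 hd0 hv hv'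
          · exact hsupp v (by rw [supp_insert]; exact mem_union_left _ hv)
              (hR'R (mem_sdiff.1 hv').1)
          · exact hsupp v (by rw [supp_insert]; exact mem_union_right _ hv')
              (hR'R (hR1' (mem_sdiff.1 hv).1))
          · exact (mem_sdiff.1 hv').2 (mem_sdiff.1 hv).1
        have h3 := PP.union hW hdis hp2 hp1
        have e : ({p.1, p.2} : Finset α) ∪ (R1 \ R2) ∪ (supp M' ∪ (R' \ R1)) =
            supp (insert p M') ∪ (R' \ R2) := by
          rw [supp_insert]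
          ext v
          simp only [mem_union, mem_sdiff]
          have a := @hR1' v
          have b := @hR2 v
          tauto
        rw [e] at h3
        refine h3.mono (le_of_eq ?_)
        rw [card_insert_of_notMem hp]
        push_cast; ring
  obtain ⟨Z, hZ, n, hn, hc, hp⟩ := key M (Subset.refl _)
  have hRS : R ⊆ S := sdiff_subset
  have hdis : Disjoint (supp M) (R' \ Z) := by
    rw [disjoint_left]
    intro v hv hv'
    exact (mem_sdiff.1 (hR'R (mem_sdiff.1 hv').1)).2 hv
  have hcB : (supp M ∪ (R' \ Z)).card = 2 * (M.card + n) := by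
    rw [card_union_of_disjoint hdis, hM.card_supp, card_sdiff_of_subset hZ]; omega
  have hγ := hβ (supp M ∪ (R' \ Z))
    (union_subset hM.supp_subset (sdiff_subset.trans (hR'R.trans hRS)))
    (by rw [hcB]; exact even_two_mul _) (M.card + n)
    (hp.mono (le_of_eq (by rw [hcB]; push_cast; ring)))
  have hcR : R.card + 2 * M.card = S.card := by
    rw [hR, card_sdiff_of_subset hM.supp_subset, hM.card_supp]
    have := card_le_card hM.supp_subset
    rw [hM.card_supp] at this
    omega
  have hcR' : R.card ≤ R'.card + T.card := by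
    rw [hR']; exact card_le_card_sdiff_add_card
  refine ⟨Z, hZ.trans (hR'R.trans hRS), by omega,
    fun z hz z' hz' => hR1 z (hR'R (hZ hz)) z' (hR'R (hZ hz')), ?_⟩
  intro z hz z' hz' u hu huz huz'
  by_cases hu' : u ∈ supp M
  · exact hc u hu' z hz z' hz'
  · have huR : u ∈ R := mem_sdiff.2 ⟨hu, hu'⟩
    rw [hR1 u huR z (hR'R (hZ hz)) huz, hR1 u huR z' (hR'R (hZ hz')) huz']

end Pool.Agent.Lib.MP_5bcad1_co
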