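import Pool.Agent.Lib.MP_5bcad1_co.Forest

open Finset

set_option linter.unusedSectionVars false

namespace Pool.Agent.Lib.MP_5bcad1_co

variable {α : Type} [DecidableEq α]

def err (W : α → α → ℤ) (a : α → ℤ) : α → α → ℤ := fun i j =>
  if i = j then 0 else W i j - a i * a j

lemma err_symW {W : α → α → ℤ} (hW : SymW W) (a : α → ℤ) : SymW (err W a) := by
  refine ⟨fun i j => ?_, fun i => by simp [err]⟩
  unfold err
  by_cases h : i = j
  · simp [h]
  · rw [if_neg h, if_neg (Ne.symm h), hW.symm i j, mul_comm]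

lemma qf_err {W : α → α → ℤ} (hW : SymW W) (a : α → ℤ) (S : Finset α) {x : α → ℤ} (hx : Sg x) :
    qf W S x = (∑ i ∈ S, a i * x i) ^ 2 - ∑ i ∈ S, a i ^ 2 + qf (err W a) S x := by
  unfold qf
  rw [sq, sum_mul_sum, ← sum_sub_distrib, ← sum_add_distrib]
  refine sum_congr rfl fun i hi => ?_
  rw [← add_sum_erase S _ hi, ← add_sum_erase S _ hi, ← add_sum_erase S _ hi, hW.diag]
  have e : ∑ j ∈ S.erase i, W i j * x i * x j = ∑ j ∈ S.erase i, a i * x i * (a j * x j) +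
      ∑ j ∈ S.erase i, err W a i j * x i * x j := by
    rw [← sum_add_distrib]
    refine sum_congr rfl fun j hj => ?_
    simp only [err, (ne_of_mem_erase hj).symm, if_false]
    ring
  rw [e]
  have := hx.sq i
  simp only [err, if_true]
  linear_combination (- a i ^ 2) * this

lemma glueGood {e : α → α → ℤ} (he : SymW e) {D T : Finset α} (hd : Disjoint D T)
    (h0 : ∀ u ∈ D, ∀ v ∈ T, e u v = 0) (a : α → ℤ) {x y : α → ℤ} (hx : Sg x) (hy : Sg y)
    (gx : Good (tot e D) (tot e D - qf e D x)) (gy : Good (tot e T) (tot e T - qf e T y)) :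
    ∃ z, Sg z ∧ Good (tot e (D ∪ T)) (tot e (D ∪ T) - qf e (D ∪ T) z) ∧
      |∑ i ∈ D ∪ T, a i * z i| ≤ max |∑ i ∈ D, a i * x i| |∑ i ∈ T, a i * y i| := by
  set A := ∑ i ∈ D, a i * x i with hA
  set B := ∑ i ∈ T, a i * y i with hB
  obtain ⟨σ, hσ, hσ'⟩ : ∃ σ : ℤ, (σ = 1 ∨ σ = -1) ∧ |A + σ * B| ≤ max |A| |B| := by
    by_cases h : (0 ≤ A ∧ 0 ≤ B) ∨ (A ≤ 0 ∧ B ≤ 0)
    · refine ⟨-1, Or.inr rfl, ?_⟩
      simp only [Int.abs_eq_natAbs]; omega
    · refine ⟨1, Or.inl rfl, ?_⟩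
      simp only [Int.abs_eq_natAbs]; omega
  obtain ⟨z, hz, hzx, hzy⟩ := glue hd hx hy hσ
  refine ⟨z, hz, ?_, ?_⟩
  · have c1 : ∑ i ∈ D, ∑ j ∈ T, e i j = 0 :=
      sum_eq_zero fun i hi => sum_eq_zero fun j hj => h0 i hi j hj
    have c2 : ∑ i ∈ D, ∑ j ∈ T, e i j * z i * z j = 0 :=
      sum_eq_zero fun i hi => sum_eq_zero fun j hj => by rw [h0 i hi j hj]; ring
    rw [tot_union he hd, qf_union he hd, c1, c2, qf_congr hzx, qf_smul hσ hzy]
    exact (gx.add gy).mono (by linarith) (by linarith)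
  · rw [sum_union hd, sum_congr rfl fun i hi => by rw [hzx i hi],
      sum_congr rfl (s₁ := T) fun i hi => by rw [hzy i hi]]
    have : ∑ i ∈ T, a i * (σ * y i) = σ * B := by
      rw [hB, mul_sum]; exact sum_congr rfl fun i _ => by ring
    rw [this]; exact hσ'

lemma abs_sum_nontriv {e : α → α → ℤ} {D : Finset α} {x : α → ℤ} (hx : Sg x)
    (h : 0 < tot e D - qf e D x) : |∑ i ∈ D, x i| + 2 ≤ D.card := by
  have h1 : ∀ σ : ℤ, (σ = 1 ∨ σ = -1) → ∃ i ∈ D, x i = -σ := by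
    intro σ hσ
    by_contra hc
    push Not at hc
    have : qf e D x = qf e D (fun _ => 1) := by
      refine qf_smul hσ fun i hi => ?_
      have := hc i hi
      rcases hσ with h | h <;> rcases hx i with h' | h' <;> simp_all
    rw [this, ← tot_eq_qf] at h
    simp at h
  obtain ⟨i, hi, hi'⟩ := h1 1 (Or.inl rfl)
  obtain ⟨j, hj, hj'⟩ := h1 (-1) (Or.inr rfl)
  have b1 := single_le_sum (f := fun i => 1 - x i) (s := D)
    (fun i _ => by rcases hx i with h | h <;> simp [h]) hi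
  have b2 := single_le_sum (f := fun i => 1 + x i) (s := D)
    (fun i _ => by rcases hx i with h | h <;> simp [h]) hj
  simp only [sum_sub_distrib, sum_add_distrib, sum_const, nsmul_eq_mul, mul_one, hi', hj'] at b1 b2
  simp only [Int.abs_eq_natAbs]; omega

variable {W : α → α → ℤ} {S Z : Finset α} {a : α → ℤ}

lemma comps (C : Ctx W S Z a)
    (hIH : ∀ D ⊆ S \ Z, ∃ x, Sg x ∧ Good (tot (err W a) D) (tot (err W a) D - qf (err W a) D x))
    (n : ℕ) : ∀ T : Finset α, T.card = n → T ⊆ S \ Z → (∀ v ∈ T, a v = 1) →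
      (∀ v ∈ T, ∃ u ∈ T, u ≠ v ∧ W u v ≠ 1) →
      ∃ γ : ℤ, 0 ≤ γ ∧ GG W Z T γ ∧ (T.card : ℤ) ≤ 3 * γ ∧ ∃ x, Sg x ∧
        Good (tot (err W a) T) (tot (err W a) T - qf (err W a) T x) ∧
        |∑ i ∈ T, a i * x i| + T.card ≤ 4 * γ := by
  induction n using Nat.strong_induction_on with
  | _ n ih =>
    intro T hn hT hl hnb
    rcases T.eq_empty_or_nonempty with rfl | ⟨ρ, hρ⟩
    · exact ⟨0, le_rfl, GG_zero _ _ _, by simp, fun _ => 1, sg_one,
        by simpa [tot, qf] using good_zero, by simp⟩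
    obtain ⟨D, hρD, hDT, ⟨par, idx, hp⟩, hcl⟩ := maxRooted (fun u v => W u v ≠ a u)
      (singleton_subset_iff.2 hρ)
    have hcl' : ∀ u ∈ D, ∀ v ∈ T, v ∉ D → W u v = 1 := fun u hu v hv hv' => by
      have := hcl u hu v hv hv'
      rw [← hl u (hDT hu)]
      simpa using this
    have hρD' : ρ ∈ D := hρD (mem_singleton_self _)
    obtain ⟨γ1, hγ1, hc1, g1⟩ := forest C par idx _ D {ρ} rfl hρD (hDT.trans hT)
      (fun v hv _ => hl v (hDT hv)) hp
    obtain ⟨u, huT, huρ, hW⟩ := hnb ρ hρ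
    have huD : u ∈ D := by
      by_contra h
      exact hW (by rw [C.sym.symm]; exact hcl' ρ hρD' u huT h)
    have hD2 : 2 ≤ D.card := one_lt_card.2 ⟨u, huD, ρ, hρD', huρ⟩
    simp only [sum_singleton, hl ρ hρ, card_singleton] at hc1
    have hc : (T \ D).card + D.card = T.card := card_sdiff_add_card_eq_card hDT
    obtain ⟨γ2, hγ2, g2, hc2, y, hy, gy, hiy⟩ := ih _ (by omega) (T \ D) rfl
      (sdiff_subset.trans hT) (fun v hv => hl v (mem_sdiff.1 hv).1)
      (by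
        intro v hv
        rw [mem_sdiff] at hv
        obtain ⟨w, hw, hwv, hW'⟩ := hnb v hv.1
        exact ⟨w, mem_sdiff.2 ⟨hw, fun h => hW' (hcl' w h v hv.1 hv.2)⟩, hwv, hW'⟩)
    obtain ⟨x, hx, gx⟩ := hIH D (hDT.trans hT)
    have hnn : ∀ i ∈ D, ∀ j ∈ D, 0 ≤ err W a i j := by
      intro i hi j hj
      unfold err
      split_ifs with h
      · exact le_rfl
      · rw [hl i (hDT hi), hl j (hDT hj)]
        have := C.one i (mem_sdiff.1 (hT (hDT hi))).1 j (mem_sdiff.1 (hT (hDT hj))).1 h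
        linarith
    have hpos : 0 < tot (err W a) D := by
      have b1 := single_le_sum (f := fun i => ∑ j ∈ D, err W a i j)
        (fun i hi => sum_nonneg fun j hj => hnn i hi j hj) huD
      have b2 := single_le_sum (f := fun j => err W a u j) (fun j hj => hnn u huD j hj) hρD'
      have b3 := hnn u huD ρ hρD'
      simp only [err, huρ, if_false, hl u huT, hl ρ hρ] at b2 b3
      simp only [err, hl u huT] at b1
      unfold tot
      simp only [err]
      omega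
    have hix := abs_sum_nontriv hx (gx.pos hpos)
    have hix' : ∑ i ∈ D, a i * x i = ∑ i ∈ D, x i :=
      sum_congr rfl fun i hi => by rw [hl i (hDT hi), one_mul]
    obtain ⟨z, hz, gz, hiz⟩ := glueGood (err_symW C.sym a) (disjoint_sdiff (s := D) (t := T))
      (by
        intro i hi j hj
        rw [mem_sdiff] at hj
        have : i ≠ j := fun h => hj.2 (h ▸ hi)
        simp [err, this, hcl' i hi j hj.1 hj.2, hl i (hDT hi), hl j hj.1]) a hx hy gx gy
    have g3 := GG.union C.sym (disjoint_sdiff (s := D) (t := T))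
      (by rw [disjoint_left]; intro v hv; exact (mem_sdiff.1 (hT (mem_sdiff.1 hv).1)).2)
      hγ1 hγ2 g1 g2
    rw [union_sdiff_of_subset hDT] at g3 gz hiz
    rw [hix'] at hiz
    refine ⟨γ1 + γ2, by linarith, g3, by omega, z, hz, gz, ?_⟩
    have := abs_nonneg (∑ i ∈ T \ D, a i * y i)
    omega

lemma fill_sign (Z : Finset α) : ∀ I : ℤ, |I| ≤ Z.card + 1 →
    ∃ y, Sg y ∧ |I + ∑ i ∈ Z, y i| ≤ 1 := by
  induction Z using Finset.induction_on with
  | empty => intro I h; exact ⟨fun _ => 1, sg_one, by simpa using h⟩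
  | insert v Z hv ih =>
    intro I h
    rw [card_insert_of_notMem hv] at h
    obtain ⟨σ, hσ, hσ'⟩ : ∃ σ : ℤ, (σ = 1 ∨ σ = -1) ∧ |I + σ| ≤ Z.card + 1 := by
      rcases le_total I 0 with h' | h'
      · exact ⟨1, Or.inl rfl, by simp only [Int.abs_eq_natAbs] at *; omega⟩
      · exact ⟨-1, Or.inr rfl, by simp only [Int.abs_eq_natAbs] at *; omega⟩
    obtain ⟨y, hy, h2⟩ := ih _ hσ'
    refine ⟨Function.update y v σ, fun i => ?_, ?_⟩
    · by_cases hi : i = v
      · subst hi; simpa using hσ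
      · simpa [hi] using hy i
    · rw [sum_insert hv, Function.update_self, sum_congr rfl (g := y) fun i hi => by
        have : i ≠ v := fun h => hv (h ▸ hi)
        simp [this], ← add_assoc]
      exact h2

lemma fill (C : Ctx W S Z a) {x : α → ℤ} (hx : Sg x)
    (gx : Good (tot (err W a) (S \ Z)) (tot (err W a) (S \ Z) - qf (err W a) (S \ Z) x))
    (hI : |∑ i ∈ S \ Z, a i * x i| ≤ Z.card + 1) :
    ∃ y, Sg y ∧ Good (tot W S) (tot W S - qf W S y) := by
  obtain ⟨y, hy, h2⟩ := fill_sign Z _ hI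
  obtain ⟨z, hz, hzx, hzy⟩ := glue (sdiff_disjoint (s := Z) (t := S)) hx hy (Or.inl rfl)
  have hU : S \ Z ∪ Z = S := sdiff_union_of_subset C.sub
  have he0 : ∀ i ∈ S, ∀ j ∈ Z, err W a i j = 0 := by
    intro i hi j hj
    unfold err
    split_ifs with h
    · rfl
    · rw [C.row j hj i hi h, C.aZ j hj]; ring
  have hq : ∀ w : α → ℤ, qf (err W a) S w = qf (err W a) (S \ Z) w := by
    intro w
    conv_lhs => rw [← hU]
    rw [qf_union (err_symW C.sym a) sdiff_disjoint]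
    have c1 : qf (err W a) Z w = 0 :=
      sum_eq_zero fun i hi => sum_eq_zero fun j hj => by rw [he0 i (C.sub hi) j hj]; ring
    have c2 : ∑ i ∈ S \ Z, ∑ j ∈ Z, err W a i j * w i * w j = 0 :=
      sum_eq_zero fun i hi => sum_eq_zero fun j hj => by
        rw [he0 i (mem_sdiff.1 hi).1 j hj]; ring
    rw [c1, c2]; ring
  refine ⟨z, hz, ?_⟩
  have hs : ∑ i ∈ S, a i * z i = ∑ i ∈ S \ Z, a i * x i + ∑ i ∈ Z, y i := by
    conv_lhs => rw [← hU]
    rw [sum_union sdiff_disjoint]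
    congr 1
    · exact sum_congr rfl fun i hi => by rw [hzx i hi]
    · exact sum_congr rfl fun i hi => by rw [hzy i hi, C.aZ i hi]; ring
  set s := ∑ i ∈ S, a i * z i with hsdef
  rw [← hs] at h2
  have hN0 : 0 ≤ ∑ i ∈ S, a i := sum_nonneg fun i hi => by linarith [C.pos i hi]
  obtain ⟨N, hN⟩ := Int.eq_ofNat_of_zero_le hN0
  have hpar : (2 : ℤ) ∣ N - s := by
    rw [← hN, hsdef, ← sum_sub_distrib]
    refine dvd_sum fun i _ => ?_
    rcases hz i with h | h <;> rw [h]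
    · simp
    · exact ⟨a i, by ring⟩
  have hs2 : s ^ 2 ≤ (N : ℤ) % 2 := by
    have : s = -1 ∨ s = 0 ∨ s = 1 := by simp only [Int.abs_eq_natAbs] at h2; omega
    rcases this with h | h | h <;> rw [h] at hpar ⊢ <;> omega
  have hsq : (N : ℤ) ≤ ∑ i ∈ S, a i ^ 2 := by
    rw [← hN]
    exact sum_le_sum fun i hi => by nlinarith [C.pos i hi]
  have t1 : tot W S = (N : ℤ) ^ 2 - ∑ i ∈ S, a i ^ 2 + tot (err W a) (S \ Z) := by
    rw [tot_eq_qf, qf_err C.sym a S sg_one, hq, ← tot_eq_qf]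
    simp [hN]
  have t2 := qf_err C.sym a S hz
  rw [hq, qf_congr hzx, ← hsdef] at t2
  exact ((good_single N).add gx).mono (by nlinarith) (by linarith)

lemma stage2 (hW : SymW W) (h1 : ∀ i ∈ S, ∀ j ∈ S, i ≠ j → 1 ≤ W i j) {β : ℤ} (hβ0 : 0 ≤ β)
    (hβ : ∀ B ⊆ S, Even B.card → ∀ γ : ℤ, PP W B (B.card + 2 * γ) → γ ≤ β)
    (ht : 4 * β ≤ S.card + 1)
    (hIH : ∀ W' : α → α → ℤ, SymW W' → ∀ D : Finset α, D.card < S.card →
      ∃ x, Sg x ∧ Good (tot W' D) (tot W' D - qf W' D x))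
    {Z0 : Finset α} (hZ0 : Z0 ⊆ S) (hc : β + 1 ≤ Z0.card)
    (hz1 : ∀ z ∈ Z0, ∀ z' ∈ Z0, z ≠ z' → W z z' = 1)
    (hz2 : ∀ z ∈ Z0, ∀ z' ∈ Z0, ∀ u ∈ S, u ≠ z → u ≠ z' → W u z = W u z') :
    ∃ y, Sg y ∧ Good (tot W S) (tot W S - qf W S y) := by
  classical
  obtain ⟨z0, hz0⟩ : Z0.Nonempty := card_pos.1 (by omega)
  set Z := S.filter fun v => v = z0 ∨ (W v z0 = 1 ∧ ∀ u ∈ S, u ≠ v → u ≠ z0 → W u v = W u z0)
    with hZ
  have hZ0Z : Z0 ⊆ Z := by
    intro v hv
    refine mem_filter.2 ⟨hZ0 hv, ?_⟩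
    by_cases h : v = z0
    · exact Or.inl h
    · exact Or.inr ⟨hz1 v hv z0 hz0 h, fun u hu b1 b2 => hz2 v hv z0 hz0 u hu b1 b2⟩
  have hz0Z : z0 ∈ Z := hZ0Z hz0
  set a : α → ℤ := fun v => if v = z0 then 1 else W v z0 with ha
  have C : Ctx W S Z a := by
    refine ⟨hW, h1, filter_subset _ _, ?_, ?_, ?_⟩
    · intro z hz v hv hvz
      rcases (mem_filter.1 hz).2 with rfl | ⟨b1, b2⟩
      · simp [ha, hvz]
      · by_cases h : v = z0
        · subst h; simp [ha, hW.symm v z, b1]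
        · simp [ha, h, b2 v hv hvz h]
    · intro z hz
      rcases (mem_filter.1 hz).2 with rfl | ⟨b1, _⟩
      · simp [ha]
      · simp [ha, b1]
    · intro v hv
      simp only [ha]
      split_ifs with h
      · exact le_rfl
      · exact h1 v hv z0 (hZ0 hz0) h
  have hcZ : Z0.card ≤ Z.card := card_le_card hZ0Z
  have hcU : (S \ Z).card + Z.card = S.card := card_sdiff_add_card_eq_card C.sub
  have hIH' : ∀ D ⊆ S \ Z, ∃ x, Sg x ∧
      Good (tot (err W a) D) (tot (err W a) D - qf (err W a) D x) := fun D hD =>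
    hIH _ (err_symW hW a) D (by have := card_le_card hD; omega)
  set A := (S \ Z).filter fun u => 2 ≤ a u with hA
  obtain ⟨D, hAD, hDU, ⟨par, idx, hp⟩, hcl⟩ := maxRooted (fun u v => W u v ≠ a u)
    (filter_subset (fun u => 2 ≤ a u) (S \ Z))
  have hlight : ∀ v ∈ S \ Z, v ∉ A → a v = 1 := by
    intro v hv hv'
    have b1 := C.pos v (mem_sdiff.1 hv).1
    have b2 : ¬ 2 ≤ a v := fun h => hv' (mem_filter.2 ⟨hv, h⟩)
    omega
  obtain ⟨γ1, hγ1, hc1, g1⟩ := forest C par idx _ D A rfl hAD hDU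
    (fun v hv hv' => hlight v (hDU hv) hv') hp
  have hlT : ∀ v ∈ (S \ Z) \ D, a v = 1 := fun v hv =>
    hlight v (mem_sdiff.1 hv).1 fun h => (mem_sdiff.1 hv).2 (hAD h)
  have hcl' : ∀ u ∈ D, ∀ v ∈ (S \ Z) \ D, W u v = a u := fun u hu v hv => by
    simpa using hcl u hu v (mem_sdiff.1 hv).1 (mem_sdiff.1 hv).2
  obtain ⟨γ2, hγ2, g2, hc2, y, hy, gy, hiy⟩ := comps C hIH' _ ((S \ Z) \ D) rfl sdiff_subset hlT
    (by
      intro v hv
      have hvU := mem_sdiff.1 (mem_sdiff.1 hv).1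
      have hv0 : v ≠ z0 := fun h => hvU.2 (h ▸ hz0Z)
      have hv1 : W v z0 = 1 := by simpa [ha, hv0] using hlT v hv
      have : ¬ ∀ u ∈ S, u ≠ v → u ≠ z0 → W u v = W u z0 := fun h =>
        hvU.2 (mem_filter.2 ⟨hvU.1, Or.inr ⟨hv1, h⟩⟩)
      push Not at this
      obtain ⟨u, hu, huv, hu0, hne⟩ := this
      have hau : a u = W u z0 := by simp [ha, hu0]
      have huZ : u ∉ Z := by
        intro h
        apply hne
        rw [hW.symm u v, C.row u h v hvU.1 huv.symm, hlT v hv, ← hau, C.aZ u h]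
      have huD : u ∉ D := fun h => hne (by rw [hcl' u h v hv, hau])
      have huT : u ∈ (S \ Z) \ D := mem_sdiff.2 ⟨mem_sdiff.2 ⟨hu, huZ⟩, huD⟩
      exact ⟨u, huT, huv, by rw [← hlT u huT, hau]; exact hne⟩)
  obtain ⟨x, hx, gx⟩ := hIH' D hDU
  obtain ⟨z, hz, gz, hiz⟩ := glueGood (err_symW C.sym a) (disjoint_sdiff (s := D) (t := S \ Z))
    (by
      intro i hi j hj
      have : i ≠ j := fun h => (mem_sdiff.1 hj).2 (h ▸ hi)
      simp [err, this, hcl' i hi j hj, hlT j hj]) a hx hy gx gy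
  have g3 := GG.union C.sym (disjoint_sdiff (s := D) (t := S \ Z))
    (by rw [disjoint_left]; intro v hv; exact (mem_sdiff.1 (mem_sdiff.1 hv).1).2)
    hγ1 hγ2 g1 g2
  rw [union_sdiff_of_subset hDU] at g3 gz hiz
  obtain ⟨B, hB, he, hpB, -⟩ := g3 Z (Subset.refl _)
  rw [sdiff_union_of_subset C.sub] at hB
  have hγ := hβ B hB he _ hpB
  refine fill C hz gz (hiz.trans ?_)
  have hxD : |∑ i ∈ D, a i * x i| ≤ ∑ u ∈ A, (a u - 1) + D.card := by
    refine (abs_sum_le_sum_abs _ _).trans ?_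
    have e1 : ∑ i ∈ D, |a i * x i| = ∑ i ∈ D, (a i - 1) + D.card := by
      rw [sum_sub_distrib, sum_const, nsmul_eq_mul, mul_one, sub_add_cancel]
      refine sum_congr rfl fun i hi => ?_
      have := C.pos i (mem_sdiff.1 (hDU hi)).1
      rcases hx i with h | h <;> simp [h] <;> linarith
    rw [e1, ← sum_subset hAD fun v hv hv' => by rw [hlight v (hDU hv) hv']; ring]
  have hAJ : (A.card : ℤ) ≤ ∑ u ∈ A, (a u - 1) := by
    rw [card_eq_sum_ones]
    push_cast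
    exact sum_le_sum fun u hu => by linarith [(mem_filter.1 hu).2]
  have hcT : ((S \ Z) \ D).card + D.card = (S \ Z).card := card_sdiff_add_card_eq_card hDU
  have hAD' : A.card ≤ D.card := card_le_card hAD
  omega

end Pool.Agent.Lib.MP_5bcad1_co
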